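import Pool.Agent.Zk1.BIR.Prod

set_option autoImplicit false

/-!
# Removal of Euler factors
-/

namespace Pool.Agent.Zk1.BIR

open Complex Set
open Pool.Agent.Zk3.GL (pol_factor)

lemma cpow_norm' {p : ℕ} (hp : 0 < p) (s : ℂ) : ‖(p : ℂ) ^ (-s)‖ = (p : ℝ) ^ (-s.re) := by
  rw [Complex.norm_natCast_cpow_of_pos hp, Complex.neg_re]

/-- a bound for the local polynomials -/
lemma IsHR.local_le {i D : ℕ} {M : ℝ} {P : ℕ → Polynomial ℂ} {A Q : ℝ} {L : ℂ → ℂ} (h : IsHR i D M P A Q L) {p : ℕ}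
    (hp : p.Prime) {s : ℂ} (hs : (i : ℝ) / 2 ≤ s.re) : ‖(P p).eval ((p : ℂ) ^ (-s))‖ ≤ (p : ℝ) ^ (2 * D) := by
  have hp0 : (0 : ℝ) < p := by exact_mod_cast hp.pos
  have hp1 : (1 : ℝ) ≤ p := by exact_mod_cast hp.one_lt.le
  have hp2 : (2 : ℝ) ≤ p := by exact_mod_cast hp.two_le
  obtain ⟨α, h2, h3⟩ := pol_factor (R := (p : ℝ) ^ (((i : ℝ) + 1) / 2)) (by positivity) (h.const p hp)
    (h.degree p hp)
    (fun z hz => by
      rw [← Real.rpow_neg hp0.le]
      exact h.roots p hp z hz)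
  rw [h3, norm_prod]
  calc ∏ j : Fin D, ‖1 - α j * (p : ℂ) ^ (-s)‖ ≤ ∏ _j : Fin D, (p : ℝ) ^ 2 := by
        refine Finset.prod_le_prod (fun _ _ => norm_nonneg _) fun j _ => ?_
        have e1 : ‖α j * (p : ℂ) ^ (-s)‖ ≤ (p : ℝ) ^ (1 / 2 : ℝ) := by
          rw [norm_mul, cpow_norm' hp.pos]
          calc ‖α j‖ * (p : ℝ) ^ (-s.re) ≤ (p : ℝ) ^ (((i : ℝ) + 1) / 2) * (p : ℝ) ^ (-s.re) :=
                mul_le_mul_of_nonneg_right (h2 j) (by positivity)
            _ = (p : ℝ) ^ (((i : ℝ) + 1) / 2 + -s.re) := (Real.rpow_add hp0 _ _).symm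
            _ ≤ (p : ℝ) ^ (1 / 2 : ℝ) := Real.rpow_le_rpow_of_exponent_le hp1 (by linarith)
        have e2 : (p : ℝ) ^ (1 / 2 : ℝ) ≤ p := by
          calc (p : ℝ) ^ (1 / 2 : ℝ) ≤ (p : ℝ) ^ (1 : ℝ) := Real.rpow_le_rpow_of_exponent_le hp1 (by norm_num)
            _ = p := Real.rpow_one _
        calc ‖1 - α j * (p : ℂ) ^ (-s)‖ ≤ ‖(1 : ℂ)‖ + ‖α j * (p : ℂ) ^ (-s)‖ := norm_sub_le _ _
          _ ≤ 1 + p := by rw [norm_one]; linarith
          _ ≤ (p : ℝ) ^ 2 := by nlinarith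
    _ = (p : ℝ) ^ (2 * D) := by
        rw [Finset.prod_const, Finset.card_univ, Fintype.card_fin, ← pow_mul]

/-- the removal of the Euler factors at the divisors of `N` -/
theorem IsHR.remove {i D : ℕ} {M : ℝ} {P : ℕ → Polynomial ℂ} {A Q : ℝ} {L : ℂ → ℂ} (h : IsHR i D M P A Q L)
    (hA : 1 ≤ A) (hQ : 1 ≤ Q) {N : ℕ} (hN : N ≠ 0) :
    IsHR i D M (fun p => if p ∣ N then 1 else P p) (A + (2 * D : ℕ)) (Q * N)
      (fun s => L s * ∏ p ∈ N.primeFactors, (P p).eval ((p : ℂ) ^ (-s))) where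
  const p hp := by
    split_ifs
    · simp
    · exact h.const p hp
  degree p hp := by
    split_ifs
    · simp
    · exact h.degree p hp
  roots p hp z hz := by
    split_ifs at hz
    · simp at hz
    · exact h.roots p hp z hz
  mean := by
    obtain ⟨g, a1, a2, a3⟩ := h.mean
    refine ⟨g, a1, fun p hp z hz => ?_, a3⟩
    split_ifs at hz
    · simp at hz
    · exact a2 p hp z hz
  euler s hs := by
    have hne : ∀ p : Nat.Primes, (P p).eval (((p : ℕ) : ℂ) ^ (-s)) ≠ 0 := by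
      intro p hp
      have h1 := h.roots p p.2 _ hp
      have hp0 : (0 : ℝ) < (p : ℕ) := by exact_mod_cast p.2.pos
      have hp1 : (1 : ℝ) < (p : ℕ) := by exact_mod_cast p.2.one_lt
      rw [cpow_norm' p.2.pos] at h1
      have h2 := (Real.rpow_le_rpow_left_iff hp1).1 h1
      linarith
    set S : Finset Nat.Primes := N.primeFactors.attach.map
      ⟨fun p => ⟨p.1, Nat.prime_of_mem_primeFactors p.2⟩, fun p q hpq => by
        have := congrArg Subtype.val hpq
        exact Subtype.ext this⟩ with hS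
    have hmem : ∀ p : Nat.Primes, p ∈ S ↔ (p : ℕ) ∣ N := by
      intro p
      rw [hS, Finset.mem_map]
      constructor
      · rintro ⟨q, -, rfl⟩
        exact Nat.dvd_of_mem_primeFactors q.2
      · intro hp
        exact ⟨⟨p, Nat.mem_primeFactors.2 ⟨p.2, hp, hN⟩⟩, Finset.mem_attach _ _, rfl⟩
    have h1 : HasProd (fun p : Nat.Primes => if (p : ℕ) ∣ N then (P p).eval (((p : ℕ) : ℂ) ^ (-s)) else 1)
        (∏ p ∈ S, if (p : ℕ) ∣ N then (P p).eval (((p : ℕ) : ℂ) ^ (-s)) else 1) :=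
      hasProd_prod_of_ne_finset_one fun p hp => by
        rw [hmem] at hp
        rw [if_neg hp]
    have h2 : (∏ p ∈ S, if (p : ℕ) ∣ N then (P p).eval (((p : ℕ) : ℂ) ^ (-s)) else 1) =
        ∏ p ∈ N.primeFactors, (P p).eval ((p : ℂ) ^ (-s)) := by
      rw [hS, Finset.prod_map, ← Finset.prod_attach N.primeFactors]
      refine Finset.prod_congr rfl fun p _ => ?_
      exact if_pos (Nat.dvd_of_mem_primeFactors p.2)
    rw [h2] at h1
    refine ((h.euler s hs).mul h1).congr_fun fun p => ?_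
    split_ifs
    · rw [Polynomial.eval_one, inv_one, inv_mul_cancel₀ (hne p)]
    · rw [mul_one]
  analytic s hs := by
    refine (h.analytic s hs).mul ?_
    refine Finset.analyticAt_fun_prod _ fun p hp => ?_
    have hp0 : (p : ℂ) ≠ 0 := by exact_mod_cast (Nat.prime_of_mem_primeFactors hp).ne_zero
    have h1 : AnalyticAt ℂ (fun s : ℂ => (p : ℂ) ^ (-s)) s := by
      have e : (fun s : ℂ => (p : ℂ) ^ (-s)) = fun s : ℂ => Complex.exp (Complex.log p * (-s)) := by
        funext s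
        rw [Complex.cpow_def_of_ne_zero hp0]
      rw [e]
      fun_prop
    have h2 : (fun s : ℂ => (P p).eval ((p : ℂ) ^ (-s))) = fun s => Polynomial.aeval ((p : ℂ) ^ (-s)) (P p) := by
      funext s
      simp
    rw [h2]
    exact h1.aeval_polynomial (P p)
  growth s h1 h2 h3 := by
    have hN1 : (1 : ℝ) ≤ N := by exact_mod_cast Nat.one_le_iff_ne_zero.2 hN
    have hD : (0 : ℝ) ≤ ((2 * D : ℕ) : ℝ) := Nat.cast_nonneg _
    have e1 := h.growth s h1 h2 h3
    have e2 : ‖∏ p ∈ N.primeFactors, (P p).eval ((p : ℂ) ^ (-s))‖ ≤ (N : ℝ) ^ (2 * D) := by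
      rw [norm_prod]
      calc ∏ p ∈ N.primeFactors, ‖(P p).eval ((p : ℂ) ^ (-s))‖ ≤ ∏ p ∈ N.primeFactors, (p : ℝ) ^ (2 * D) := by
            refine Finset.prod_le_prod (fun _ _ => norm_nonneg _) fun p hp => ?_
            exact h.local_le (Nat.prime_of_mem_primeFactors hp) (by linarith)
        _ = ((∏ p ∈ N.primeFactors, p : ℕ) : ℝ) ^ (2 * D) := by
            rw [Finset.prod_pow]
            push_cast
            rfl
        _ ≤ (N : ℝ) ^ (2 * D) := by
            refine pow_le_pow_left₀ (by positivity) ?_ _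
            exact_mod_cast Nat.le_of_dvd (Nat.pos_of_ne_zero hN) (Nat.prod_primeFactors_dvd N)
    rw [norm_mul]
    have e3 : 1 ≤ Q * s.im := by nlinarith
    have e4 : 1 ≤ Q * N * s.im := by
      calc (1 : ℝ) ≤ Q * s.im := e3
        _ ≤ Q * s.im * N := le_mul_of_one_le_right (by linarith) hN1
        _ = _ := by ring
    have e5 : Q * s.im ≤ Q * N * s.im := by
      calc Q * s.im ≤ Q * s.im * N := le_mul_of_one_le_right (by linarith) hN1
        _ = _ := by ring
    have e6 : (N : ℝ) ≤ Q * N * s.im := by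
      calc (N : ℝ) ≤ (Q * s.im) * N := le_mul_of_one_le_left (by linarith) e3
        _ = _ := by ring
    calc ‖L s‖ * ‖∏ p ∈ N.primeFactors, (P p).eval ((p : ℂ) ^ (-s))‖ ≤
        (A * (Q * s.im) ^ A) * (N : ℝ) ^ (2 * D) := mul_le_mul e1 e2 (norm_nonneg _) (by positivity)
      _ ≤ (A * (Q * N * s.im) ^ A) * (Q * N * s.im) ^ (((2 * D : ℕ)) : ℝ) := by
          rw [Real.rpow_natCast]
          refine mul_le_mul ?_ (pow_le_pow_left₀ (by linarith) e6 _) (by positivity) (by positivity)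
          exact mul_le_mul_of_nonneg_left (Real.rpow_le_rpow (by linarith) e5 (by linarith)) (by linarith)
      _ = A * (Q * N * s.im) ^ (A + (2 * D : ℕ)) := by
          rw [mul_assoc, ← Real.rpow_add (by linarith)]
      _ ≤ (A + (2 * D : ℕ)) * (Q * N * s.im) ^ (A + (2 * D : ℕ)) :=
          mul_le_mul_of_nonneg_right (by linarith) (by positivity)

/-- the extra factor is entire -/
lemma diff_factor (N : ℕ) (P : ℕ → Polynomial ℂ) :
    Differentiable ℂ (fun s : ℂ => ∏ p ∈ N.primeFactors, (P p).eval ((p : ℂ) ^ (-s))) := by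
  refine Differentiable.fun_finsetProd fun p hp => ?_
  have hp0 : (p : ℂ) ≠ 0 := by exact_mod_cast (Nat.prime_of_mem_primeFactors hp).ne_zero
  have h6 : Differentiable ℂ (fun s : ℂ => (p : ℂ) ^ (-s)) := by
    intro s
    exact (differentiableAt_neg_iff.2 differentiableAt_id).const_cpow (Or.inl hp0)
  exact (Polynomial.differentiable _).comp h6

end Pool.Agent.Zk1.BIR
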