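import Pool.Agent.Zk1.BIR.Asm
import Pool.Agent.Zk1.BIR.Rem

set_option autoImplicit false

/-!
# Products of newforms and Hecke characters, with any finite set of primes omitted
-/

namespace Pool.Agent.Zk1.BIR

open NumberField
open Pool.Agent.Zk3.GL (lp sums)
open Pool.Agent.N784.HC (IsHecke CTyp)

/-- only the polynomials at the primes matter -/
theorem IsHR.congrP {i D : ℕ} {M : ℝ} {P P' : ℕ → Polynomial ℂ} {A Q : ℝ} {L : ℂ → ℂ} (h : IsHR i D M P A Q L)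
    (e : ∀ p : ℕ, p.Prime → P p = P' p) : IsHR i D M P' A Q L where
  const p hp := by rw [← e p hp]; exact h.const p hp
  degree p hp := by rw [← e p hp]; exact h.degree p hp
  roots p hp z hz := h.roots p hp z (by rw [e p hp]; exact hz)
  mean := by
    obtain ⟨g, a1, a2, a3⟩ := h.mean
    exact ⟨g, a1, fun p hp z hz => a2 p hp z (by rw [e p hp]; exact hz), a3⟩
  euler s hs := (h.euler s hs).congr_fun fun p => by rw [e p p.2]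
  analytic := h.analytic
  growth := h.growth

theorem asm2 {i n : ℕ} {cop : Fin n → ℕ → Prop} {Pn : ∀ _ : Fin n, ∀ {q : ℕ}, DirichletCharacter ℂ q → ℕ → Polynomial ℂ}
    (h : ∀ j, ∃ M A : ℝ, 1 ≤ M ∧ 1 ≤ A ∧ ∀ (q : ℕ) (χ : DirichletCharacter ℂ q), 1 ≤ q → cop j q → χ.IsPrimitive →
      ∃ L : ℂ → ℂ, Differentiable ℂ L ∧ IsHR i 2 M (Pn j χ) A q L)
    (m : ℕ) (K : Fin m → Type) [∀ j, Field (K j)] [∀ j, NumberField (K j)]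
    (ν : ∀ j, (K j →+* ℂ) → ℕ) (hν : ∀ j, CTyp (ν j)) (t : ℕ) :
    ∃ M A : ℝ, 1 ≤ M ∧ 1 ≤ A ∧
      ∀ (N : ℕ) (q : Fin n → ℕ) (χ : ∀ j, DirichletCharacter ℂ (q j)) (𝔣 : ∀ j, Ideal (𝓞 (K j)))
        (ψ : ∀ j, Ideal (𝓞 (K j)) →*₀ ℂ), N ≠ 0 →
      (∀ j, 1 ≤ q j ∧ cop j (q j) ∧ (χ j).IsPrimitive) →
      (∀ j, 𝔣 j ≠ ⊤ ∧ IsHecke (K j) (𝔣 j) (ν j) (ψ j)) →
      1 ≤ (N : ℝ) * (∏ j, (q j : ℝ)) * ∏ j, (Ideal.absNorm (𝔣 j) : ℝ) ∧ ∃ L : ℂ → ℂ, (t = 0 → Differentiable ℂ L) ∧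
        IsHR i (2 * n + (t + ∑ j, Module.finrank ℚ (K j))) M
          (fun p => if p ∣ N then 1 else (∏ j, Pn j (χ j) p) *
            ((1 - Polynomial.C ((p : ℂ) ^ ((i : ℂ) / 2)) * Polynomial.X) ^ t * ∏ j, lp i (ψ j) p))
          A (N * (∏ j, (q j : ℝ)) * ∏ j, (Ideal.absNorm (𝔣 j) : ℝ)) L := by
  obtain ⟨M, A, hM, hA, h1⟩ := asm h m K ν hν t
  refine ⟨M, A + (2 * (2 * n + (t + ∑ j, Module.finrank ℚ (K j))) : ℕ), hM, ?_, fun N q χ 𝔣 ψ hN hχ hψ => ?_⟩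
  · have : (0 : ℝ) ≤ ((2 * (2 * n + (t + ∑ j, Module.finrank ℚ (K j))) : ℕ) : ℝ) := Nat.cast_nonneg _
    linarith
  obtain ⟨h2, L, h3, h4⟩ := h1 1 q χ 𝔣 ψ one_ne_zero hχ hψ
  have hN1 : (1 : ℝ) ≤ N := by exact_mod_cast Nat.one_le_iff_ne_zero.2 hN
  have e1 : ((1 : ℕ) : ℝ) * (∏ j, (q j : ℝ)) * (∏ j, (Ideal.absNorm (𝔣 j) : ℝ)) * N =
      (N : ℝ) * (∏ j, (q j : ℝ)) * ∏ j, (Ideal.absNorm (𝔣 j) : ℝ) := by push_cast; ring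
  have h5 := h4.remove hA h2 hN
  rw [e1] at h5
  refine ⟨?_, _, fun ht => (h3 ht).mul (diff_factor N _), h5.congrP fun p hp => ?_⟩
  · rw [← e1]
    exact one_le_mul_of_one_le_of_one_le h2 hN1
  · rcases Classical.em (p ∣ N) with hpN | hpN
    · simp only [if_pos hpN]
    · have h6 : ¬ p ∣ 1 := fun h => hp.one_lt.ne' (Nat.dvd_one.1 h)
      simp only [if_neg hpN, if_neg h6]

end Pool.Agent.Zk1.BIR
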