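import Pool.Agent.Zk1.BIR.Pol

set_option autoImplicit false

/-!
# Products of finitely many L-functions of Hasse-Weil type
-/

namespace Pool.Agent.Zk1.BIR

open Complex Set
open scoped BigOperators

/-- monotonicity in the constants -/
theorem IsHR.mono {i d : ℕ} {M M' : ℝ} {P : ℕ → Polynomial ℂ} {A A' Q Q' : ℝ} {L : ℂ → ℂ} (h : IsHR i d M P A Q L)
    (hM : M ≤ M') (hA : 1 ≤ A) (hA' : A ≤ A') (hQ : 1 ≤ Q) (hQ' : Q ≤ Q') : IsHR i d M' P A' Q' L where
  const := h.const
  degree := h.degree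
  roots := h.roots
  mean := by
    obtain ⟨g, a1, a2, a3⟩ := h.mean
    exact ⟨g, a1, a2, fun N => (a3 N).trans (mul_le_mul_of_nonneg_right hM (Nat.cast_nonneg N))⟩
  euler := h.euler
  analytic := h.analytic
  growth s h1 h2 h3 := by
    refine (h.growth s h1 h2 h3).trans ?_
    have e1 : 1 ≤ Q * s.im := by nlinarith
    have e2 : Q * s.im ≤ Q' * s.im := mul_le_mul_of_nonneg_right hQ' (by linarith)
    refine mul_le_mul hA' ?_ (by positivity) (by linarith)
    exact (Real.rpow_le_rpow (by linarith) e2 (by linarith)).trans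
      (Real.rpow_le_rpow_of_exponent_le (by linarith) hA')

/-- the empty product -/
theorem IsHR.one (i : ℕ) : IsHR i 0 1 (fun _ => 1) 1 1 (fun _ => 1) where
  const p _ := by simp
  degree p _ := by simp
  roots p _ z hz := by simp at hz
  mean := by
    refine ⟨fun _ => 1, fun _ => le_rfl, fun p _ z hz => by simp at hz, fun N => ?_⟩
    simp only [one_pow, Finset.sum_const, nsmul_eq_mul, mul_one, one_mul]
    have h4 : (Finset.range (N + 1)).filter Nat.Prime ⊆ Finset.Icc 1 N := by
      intro p hp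
      simp only [Finset.mem_filter, Finset.mem_range] at hp
      rw [Finset.mem_Icc]
      exact ⟨hp.2.one_lt.le, by omega⟩
    have h5 := Finset.card_le_card h4
    rw [Nat.card_Icc, Nat.add_sub_cancel] at h5
    exact_mod_cast h5
  euler s _ := by
    simp only [Polynomial.eval_one, inv_one]
    exact hasProd_one
  analytic s _ := analyticAt_const
  growth s _ _ h3 := by
    rw [norm_one, one_mul, Real.rpow_one, one_mul]
    exact h3

lemma one_le_prodR {n : ℕ} {f : Fin n → ℝ} (h : ∀ j, 1 ≤ f j) : 1 ≤ ∏ j, f j :=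
  Finset.prod_induction f (fun x => 1 ≤ x) (fun _ _ ha hb => one_le_mul_of_one_le_of_one_le ha hb) le_rfl
    fun j _ => h j

/-- finite products -/
theorem IsHR.prod {i : ℕ} : ∀ (n : ℕ) (d : Fin n → ℕ) (M A Q : Fin n → ℝ) (P : Fin n → ℕ → Polynomial ℂ)
    (L : Fin n → ℂ → ℂ), (∀ j, IsHR i (d j) (M j) (P j) (A j) (Q j) (L j)) → (∀ j, 1 ≤ A j) → (∀ j, 1 ≤ Q j) →
    IsHR i (∑ j, d j) (1 + ∑ j, M j) (fun p => ∏ j, P j p) (∏ j, (2 * A j)) (∏ j, Q j) (fun s => ∏ j, L j s) := by
  intro n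
  induction n with
  | zero =>
    intro d M A Q P L _ _ _
    simpa using IsHR.one i
  | succ n ih =>
    intro d M A Q P L h hA hQ
    have h1 := ih (fun j => d j.succ) (fun j => M j.succ) (fun j => A j.succ) (fun j => Q j.succ)
      (fun j => P j.succ) (fun j => L j.succ) (fun j => h j.succ) (fun j => hA j.succ) (fun j => hQ j.succ)
    have hA1 : 1 ≤ ∏ j : Fin n, (2 * A j.succ) := one_le_prodR fun j => by linarith [hA j.succ]
    have hQ1 : 1 ≤ ∏ j : Fin n, Q j.succ := one_le_prodR fun j => hQ j.succ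
    have h2 := (h 0).mul h1 (hA 0) (hQ 0) hA1 hQ1
    simp only [Fin.sum_univ_succ, Fin.prod_univ_succ]
    have e1 : 1 + (M 0 + ∑ j : Fin n, M j.succ) = M 0 + (1 + ∑ j : Fin n, M j.succ) := by ring
    rw [e1]
    exact h2

end Pool.Agent.Zk1.BIR
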