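import Pool.Agent.Zk1.BIR.NewfP
import Pool.Agent.Zk1.BIR.Prod
import Pool.Agent.Zk3.GL.HWk

set_option autoImplicit false

/-!
# Products of newforms and Hecke characters
-/

namespace Pool.Agent.Zk1.BIR

open NumberField
open Pool.Agent.Zk3.GL (lp sums)
open Pool.Agent.N784.HC (IsHecke CTyp)

theorem asm {i n : ℕ} {cop : Fin n → ℕ → Prop} {Pn : ∀ _ : Fin n, ∀ {q : ℕ}, DirichletCharacter ℂ q → ℕ → Polynomial ℂ}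
    (h : ∀ j, ∃ M A : ℝ, 1 ≤ M ∧ 1 ≤ A ∧ ∀ (q : ℕ) (χ : DirichletCharacter ℂ q), 1 ≤ q → cop j q → χ.IsPrimitive →
      ∃ L : ℂ → ℂ, Differentiable ℂ L ∧ IsHR i 2 M (Pn j χ) A q L)
    (m : ℕ) (K : Fin m → Type) [∀ j, Field (K j)] [∀ j, NumberField (K j)]
    (ν : ∀ j, (K j →+* ℂ) → ℕ) (hν : ∀ j, CTyp (ν j)) (t : ℕ) :
    ∃ M A : ℝ, 1 ≤ M ∧ 1 ≤ A ∧
      ∀ (N : ℕ) (q : Fin n → ℕ) (χ : ∀ j, DirichletCharacter ℂ (q j)) (𝔣 : ∀ j, Ideal (𝓞 (K j)))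
        (ψ : ∀ j, Ideal (𝓞 (K j)) →*₀ ℂ), N ≠ 0 →
      (∀ j, 1 ≤ q j ∧ cop j (q j) ∧ (χ j).IsPrimitive) →
      (∀ j, 𝔣 j ≠ ⊤ ∧ IsHecke (K j) (𝔣 j) (ν j) (ψ j)) →
      1 ≤ (N : ℝ) * (∏ j, (q j : ℝ)) * ∏ j, (Ideal.absNorm (𝔣 j) : ℝ) ∧ ∃ L : ℂ → ℂ, (t = 0 → Differentiable ℂ L) ∧
        IsHR i (2 * n + (t + ∑ j, Module.finrank ℚ (K j))) M
          (fun p => (∏ j, Pn j (χ j) p) * if p ∣ N then 1 else
            (1 - Polynomial.C ((p : ℂ) ^ ((i : ℂ) / 2)) * Polynomial.X) ^ t * ∏ j, lp i (ψ j) p)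
          A (N * (∏ j, (q j : ℝ)) * ∏ j, (Ideal.absNorm (𝔣 j) : ℝ)) L := by
  choose M A hM hA hh using h
  obtain ⟨A', hA', hs⟩ := sums m K ν hν t
  have hP1 : 1 ≤ ∏ j, (2 * A j) := one_le_prodR fun j => by linarith [hA j]
  have hS1 : 0 ≤ ∑ j, M j := Finset.sum_nonneg fun j _ => by linarith [hM j]
  refine ⟨1 + ∑ j, M j + 1, 2 * (∏ j, (2 * A j)) * A', by linarith, by nlinarith, fun N q χ 𝔣 ψ hN hχ hψ => ?_⟩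
  obtain ⟨h1, L', h2, h3⟩ := hs i N 𝔣 ψ hN hψ
  choose L hL hL2 using fun j => hh j (q j) (χ j) (hχ j).1 (hχ j).2.1 (hχ j).2.2
  have h4 := IsHR.prod n (fun _ => 2) M A (fun j => (q j : ℝ)) (fun j p => Pn j (χ j) p) L hL2 hA
    fun j => by exact_mod_cast (hχ j).1
  have hq1 : 1 ≤ ∏ j, (q j : ℝ) := one_le_prodR fun j => by exact_mod_cast (hχ j).1
  have h5 := h4.mul (IsHR.of_HW h3) hP1 hq1 hA' h1
  have e1 : (∏ j, (q j : ℝ)) * ((N : ℝ) * ∏ j, (Ideal.absNorm (𝔣 j) : ℝ)) =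
      (N : ℝ) * (∏ j, (q j : ℝ)) * ∏ j, (Ideal.absNorm (𝔣 j) : ℝ) := by ring
  have e2 : ∑ _j : Fin n, 2 = 2 * n := by simp [mul_comm]
  rw [e1, e2] at h5
  refine ⟨?_, _, fun ht => ?_, h5⟩
  · rw [← e1]
    exact one_le_mul_of_one_le_of_one_le hq1 h1
  · exact (Differentiable.fun_finsetProd fun j _ => hL j).mul (h2 ht)

end Pool.Agent.Zk1.BIR
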