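import Pool.Agent.Zk1.BIR.Euler
import Pool.Agent.Zk1.BIL.B1
import Pool.Agent.Zk1.BD.B1
import Pool.Agent.Zk3.XD.Mom
import Pool.Agent.Q209.KS.Hu

/-!
# Halász-Montgomery for powers of prime polynomials
-/

set_option autoImplicit false

namespace Pool.Agent.Zk1.BIR

open Complex Finset Pool.Agent.Zk3.Mom Pool.Agent.Q240.KS Pool.Agent.H376R2.MR
open Pool.Agent.Zk1.BD (ch_cpow)
open Pool.Agent.Zk1.BIL (PBc cb supp_lower block_pow)

variable (c : ℕ → ℂ)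

/-- the weight of the coefficients -/
lemma block_weight {D : ℝ} {g : ℕ → ℝ} (hc : CC D c g) {Y u0 : ℝ} (hY : 1 ≤ Y) (hu : 1 / 2 ≤ u0) (w : ℂ) (hw : u0 ≤ w.re) (X K : ℕ)
    (hX : 1 ≤ X) (hXY : (X : ℝ) ≤ 3 * Y) :
    ∑ n ∈ (Finset.Icc 1 (X ^ K)).filter (fun n => (fa (cb c Y w) X ^ K) n ≠ 0),
      (n : ℝ) * ‖(fa (cb c Y w) X ^ K) n‖ ^ 2 ≤
      (K.factorial : ℝ) * (3 * D ^ 2 * Y ^ (2 - 2 * u0)) ^ K := by
  have hqz : ∀ n, X < n → fq (cb c Y w) X n = 0 := fun n hn => by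
    rw [fq_apply, if_neg (by rintro ⟨_, h⟩; omega)]
  have h2 := (sum_pow (fq (cb c Y w) X) X K hX (fun n => (n : ℝ)) (fun _ _ _ _ => by push_cast; rfl)
    (by simp) hqz).2
  have h3 : ∑ n ∈ (Finset.Icc 1 (X ^ K)).filter (fun n => (fa (cb c Y w) X ^ K) n ≠ 0),
      (n : ℝ) * ‖(fa (cb c Y w) X ^ K) n‖ ^ 2 ≤
      (K.factorial : ℝ) * ∑ n ∈ Finset.Icc 1 (X ^ K), (fq (cb c Y w) X ^ K) n * (n : ℝ) := by
    rw [Finset.mul_sum]
    refine (Finset.sum_le_sum_of_subset_of_nonneg (Finset.filter_subset _ _)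
      fun n _ _ => by positivity).trans ?_
    refine Finset.sum_le_sum fun n _ => ?_
    have h4 := pow_sq (cb c Y w) X K n
    calc (n : ℝ) * ‖(fa (cb c Y w) X ^ K) n‖ ^ 2 ≤
        n * ((K.factorial : ℝ) * (fq (cb c Y w) X ^ K) n) :=
          mul_le_mul_of_nonneg_left h4 (Nat.cast_nonneg _)
      _ = _ := by ring
  rw [h2] at h3
  refine h3.trans ?_
  apply mul_le_mul_of_nonneg_left _ (by positivity)
  have hs0 : 0 ≤ ∑ n ∈ Finset.Icc 1 X, fq (cb c Y w) X n * (n : ℝ) :=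
    Finset.sum_nonneg fun n _ => mul_nonneg (fq_nonneg _ _ _) (Nat.cast_nonneg _)
  apply pow_le_pow_left₀ hs0
  have hY0 : (0 : ℝ) < Y := by linarith
  have hYp : 0 < Y ^ (1 - 2 * u0) := Real.rpow_pos_of_pos hY0 _
  have h5 : ∀ n ∈ Finset.Icc 1 X, fq (cb c Y w) X n * (n : ℝ) ≤
      Y ^ (1 - 2 * u0) * (if n.Prime then g n ^ 2 else 0) := by
    intro n hn
    have hn1 := Finset.mem_Icc.1 hn
    have hn0 : (0 : ℝ) < n := by exact_mod_cast hn1.1
    rw [fq_apply]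
    split_ifs with hp hp2 hp2
    · unfold cb
      split_ifs with hYn
      · have hcn : ‖c n * (n : ℂ) ^ (-w)‖ ^ 2 * (n : ℝ) ≤ g n ^ 2 * (‖(n : ℂ) ^ (-w)‖ ^ 2 * (n : ℝ)) := by
          rw [norm_mul, mul_pow, mul_assoc]
          apply mul_le_mul_of_nonneg_right _ (by positivity)
          exact pow_le_pow_left₀ (norm_nonneg _) (hc.cp n hp2) 2
        refine hcn.trans ?_
        rw [mul_comm]
        apply mul_le_mul_of_nonneg_right _ (by positivity)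
        rw [Complex.norm_natCast_cpow_of_pos (by omega), Complex.neg_re,
          ← Real.rpow_natCast, ← Real.rpow_mul hn0.le, ← Real.rpow_add_one hn0.ne']
        calc (n : ℝ) ^ (-w.re * ((2 : ℕ) : ℝ) + 1) ≤ (n : ℝ) ^ (1 - 2 * u0) := by
              apply Real.rpow_le_rpow_of_exponent_le (by exact_mod_cast hn1.1)
              push_cast
              linarith
          _ ≤ Y ^ (1 - 2 * u0) :=
              Real.rpow_le_rpow_of_nonpos (by linarith) hYn.le (by linarith)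
      · simp only [norm_zero]
        have : 0 ≤ Y ^ (1 - 2 * u0) * g n ^ 2 := by positivity
        simpa using this
    · exact absurd hp.1 hp2
    · rw [zero_mul]
      positivity
    · rw [zero_mul, mul_zero]
  refine (Finset.sum_le_sum h5).trans ?_
  rw [← Finset.mul_sum]
  have h8 : ∑ n ∈ Finset.Icc 1 X, (if n.Prime then g n ^ 2 else 0) ≤ D ^ 2 * X := by
    refine le_trans ?_ (hc.gs X)
    rw [Finset.sum_filter]
    apply Finset.sum_le_sum_of_subset_of_nonneg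
    · intro n hn
      rw [Finset.mem_range]
      have := (Finset.mem_Icc.1 hn).2
      omega
    · intro n _ _
      split_ifs
      · positivity
      · exact le_rfl
  have h6 : Y ^ (2 - 2 * u0) = Y * Y ^ (1 - 2 * u0) := by
    rw [show (2 : ℝ) - 2 * u0 = 1 + (1 - 2 * u0) by ring, Real.rpow_add hY0, Real.rpow_one]
  rw [h6]
  calc Y ^ (1 - 2 * u0) * ∑ n ∈ Finset.Icc 1 X, (if n.Prime then g n ^ 2 else 0) ≤ Y ^ (1 - 2 * u0) * (D ^ 2 * (3 * Y)) :=
        mul_le_mul_of_nonneg_left (h8.trans (mul_le_mul_of_nonneg_left hXY (by positivity))) hYp.le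
    _ = _ := by ring

/-- Halász-Montgomery for powers of prime polynomials. -/
theorem hmg_block {D : ℝ} {g : ℕ → ℝ} (hc : CC D c g) {Y u0 B : ℝ} {X K : ℕ} (w : ℂ) (L : Finset ℤ) (hY : 1 ≤ Y) (hX : 1 ≤ X)
    (hXY : (X : ℝ) ≤ 3 * Y) (hXK : (X : ℝ) ^ K ≤ Real.exp 2 * Y ^ K) (hu : 1 / 2 ≤ u0)
    (hw : u0 ≤ w.re) (hB : 0 ≤ B) (hL : ∀ k ∈ L, ∑ l ∈ L, ‖kn (Y ^ K) (k - l)‖ ≤ B) :
    ∑ m ∈ L, ‖PBc c Y X (w + m * I) ^ K‖ ^ 2 ≤ B * ((K.factorial : ℝ) * (3 * D ^ 2 * Y ^ (2 - 2 * u0)) ^ K) := by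
  have hY0 : (0 : ℝ) < Y := by linarith
  have hN : 1 ≤ Y ^ K := one_le_pow₀ hY
  have hN0 : 0 < Y ^ K := by positivity
  have h1 := Pool.Agent.Q209.KS.hmg
    ((Finset.Icc 1 (X ^ K)).filter (fun n => (fa (cb c Y w) X ^ K) n ≠ 0))
    (fun n => (fa (cb c Y w) X ^ K) n) (Y ^ K) B L hN hB (by
      intro n hn
      obtain ⟨h2, h3⟩ := Finset.mem_filter.1 hn
      obtain ⟨h4, h5⟩ := Finset.mem_Icc.1 h2
      refine ⟨h4, ?_⟩
      have h6 := supp_lower c hY0.le w X K n h3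
      have hn0 : (0 : ℝ) < n := by exact_mod_cast h4
      have h7 : Real.log (Y ^ K) ≤ Real.log n := Real.log_le_log hN0 h6
      have h8 : (n : ℝ) ≤ Real.exp 2 * Y ^ K := by
        refine le_trans ?_ hXK
        exact_mod_cast h5
      have h9 := Real.log_le_log hn0 h8
      rw [Real.log_mul (Real.exp_pos _).ne' hN0.ne', Real.log_exp] at h9
      rw [abs_le]
      constructor <;> linarith) hL
  have h2 : ∀ m ∈ L, ‖PBc c Y X (w + m * I) ^ K‖ ^ 2 =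
      ‖DP ((Finset.Icc 1 (X ^ K)).filter (fun n => (fa (cb c Y w) X ^ K) n ≠ 0))
      (fun n => (fa (cb c Y w) X ^ K) n) m‖ ^ 2 := by
    intro m _
    rw [block_pow c Y w X K hX m]
  rw [Finset.sum_congr rfl h2]
  exact h1.trans (mul_le_mul_of_nonneg_left (block_weight c hc hY hu w hw X K hX hXY) hB)

end Pool.Agent.Zk1.BIR
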