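import Pool.Agent.Zk1.BIR.B1
import Pool.Agent.Zk1.BIL.Blk
import Pool.Agent.Zk1.BI.Ker

/-!
# Large values of one block, with coefficients
-/

set_option autoImplicit false

namespace Pool.Agent.Zk1.BIR

open Complex Finset Pool.Agent.Q240.KS
open Pool.Agent.Zk1.BD (sq_sum)
open Pool.Agent.Zk1.BI (kg)
open Pool.Agent.Zk1.BIL (PBc PBc_diff)

theorem one_block (k q : ℕ) (D e δ : ℝ) (hk : 1 ≤ k) (hD : 1 ≤ D) (he : 0 < e) (hδ : 0 < δ)
    (hδ1 : δ ≤ 1) : ∃ A : ℝ, 1 ≤ A ∧ ∀ (c : ℕ → ℂ) (g : ℕ → ℝ) (Y σ1 : ℝ) (X K : ℕ) (L : Finset ℤ), CC D c g → 1 ≤ Y → 1 ≤ X →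
    (X : ℝ) ≤ 3 * Y → (X : ℝ) ^ K ≤ Real.exp 2 * Y ^ K → K ≤ q → 1 / 2 ≤ σ1 → σ1 ≤ 1 →
    2 * A ≤ (Y ^ K) ^ e → 2 - 2 * σ1 + 2 * e ≤ 4 / 2 ^ k →
    (∀ m ∈ L, ∀ m' ∈ L, |((m - m' : ℤ) : ℝ)| ≤
      (Y ^ K) ^ ((k : ℝ) - (2 ^ k - 2) * (2 - 2 * σ1 + 2 * e) - e)) →
    (∀ m ∈ L, ∃ z : ℂ, σ1 + δ ≤ z.re ∧ z.re ≤ 4 ∧ |z.im - m| ≤ 3 ∧ 1 ≤ ‖PBc c Y X z‖) →
    (L.card : ℝ) ≤ 10 * A * (Y ^ K) ^ (2 - 2 * σ1 + e) := by
  classical
  obtain ⟨C, hC, hker⟩ := kg k e hk he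
  obtain ⟨C2, hC2, hsq⟩ := sq_sum
  set A0 : ℝ := C2 / δ ^ 2 * ((C + Real.exp 6) * ((q.factorial : ℝ) * (3 * D ^ 2) ^ q)) with hA0
  have hE6 := Real.exp_pos 6
  have hE3 := Real.exp_pos 3
  have hA0p : 0 < A0 := by positivity
  refine ⟨A0 + Real.exp 3 + 1, by linarith, ?_⟩
  intro c g Y σ1 X K L hc1 hY hX hXY hXK hKq hσ1 hσ1' hN2 hXk hd hz
  set N : ℝ := Y ^ K with hN
  have hN1 : 1 ≤ N := one_le_pow₀ hY
  have hN0 : 0 < N := by linarith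
  have hY0 : 0 < Y := by linarith
  have hNe3 : Real.exp 3 ≤ N ^ e := by linarith
  set s : ℝ := 2 - 2 * σ1 with hs
  have hs0 : 0 ≤ s := by rw [hs]; linarith
  set B : ℝ := (C + Real.exp 6) * N ^ e * (5 + L.card * N ^ (-(s + 2 * e))) with hB
  have hNe1 : 1 ≤ N ^ e := Real.one_le_rpow hN1 he.le
  have hNe0 : 0 < N ^ e := by linarith
  have hNX0 : 0 < N ^ (-(s + 2 * e)) := Real.rpow_pos_of_pos hN0 _
  have hB0 : 0 ≤ B := by positivity
  have hrow : ∀ k' ∈ L, ∑ l ∈ L, ‖kn N (k' - l)‖ ≤ B := by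
    intro k' hk'
    rw [← Finset.add_sum_erase L _ hk', sub_self]
    have h0 := Pool.Agent.Q209.KS.ker_zero hN1
    have h2 : ∑ l ∈ L.erase k', ‖kn N (k' - l)‖ ≤ ∑ l ∈ L.erase k',
        (C * N ^ e * (1 / (((k' - l : ℤ) : ℝ)) ^ 2) + C * N ^ e * N ^ (-(s + 2 * e))) := by
      refine Finset.sum_le_sum fun l hl => ?_
      obtain ⟨h3, h4⟩ := Finset.mem_erase.1 hl
      have h5 := hker N (s + 2 * e) (k' - l) hN1 hNe3 (by linarith) hXk (sub_ne_zero.2 h3.symm)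
        (hd k' hk' l h4)
      rw [← mul_add]
      exact h5
    have h9 : ∑ l ∈ L.erase k', (1 / (((k' - l : ℤ) : ℝ)) ^ 2) ≤ 4 := by
      have h10 := Pool.Agent.Q209.KS.inv_sq_le ((L.erase k').image fun l => k' - l) (by
        intro τ hτ
        obtain ⟨l, hl, rfl⟩ := Finset.mem_image.1 hτ
        exact sub_ne_zero.2 (Finset.mem_erase.1 hl).1.symm)
      rwa [Finset.sum_image fun x _ y _ h => by simpa using h] at h10
    rw [Finset.sum_add_distrib, ← Finset.mul_sum, Finset.sum_const, nsmul_eq_mul] at h2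
    have h12 : ((L.erase k').card : ℝ) ≤ L.card := by
      exact_mod_cast Finset.card_le_card (Finset.erase_subset _ _)
    have h13 : 0 ≤ C * N ^ e * N ^ (-(s + 2 * e)) := by positivity
    have h14 := mul_le_mul_of_nonneg_right h12 h13
    have h15 := mul_le_mul_of_nonneg_left h9 (show 0 ≤ C * N ^ e by positivity)
    have h16 : Real.exp 6 ≤ Real.exp 6 * N ^ e := by nlinarith
    have h17 : 0 ≤ (L.card : ℝ) * N ^ (-(s + 2 * e)) := by positivity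
    have h18 : 0 ≤ Real.exp 6 * N ^ e * ((L.card : ℝ) * N ^ (-(s + 2 * e))) := by positivity
    have h19 : 0 ≤ Real.exp 6 * N ^ e := by positivity
    have h20 : 0 ≤ C * N ^ e := by positivity
    rw [hB]
    nlinarith
  set G : ℝ := (q.factorial : ℝ) * (3 * D ^ 2) ^ q * N ^ s with hG
  have hD2 : 1 ≤ D ^ 2 := one_le_pow₀ hD
  have hGb : (K.factorial : ℝ) * (3 * D ^ 2 * Y ^ (2 - 2 * σ1)) ^ K ≤ G := by
    rw [mul_pow, hG]
    have e1 : (Y ^ (2 - 2 * σ1)) ^ K = N ^ s := by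
      rw [hN, hs, ← Real.rpow_natCast, ← Real.rpow_mul hY0.le, ← Real.rpow_natCast Y K,
        ← Real.rpow_mul hY0.le, mul_comm]
    rw [e1, ← mul_assoc]
    have hNs : 0 < N ^ s := Real.rpow_pos_of_pos hN0 _
    apply mul_le_mul_of_nonneg_right _ hNs.le
    apply mul_le_mul
    · exact_mod_cast Nat.factorial_le hKq
    · exact pow_le_pow_right₀ (by linarith) hKq
    · positivity
    · positivity
  have hmain := hsq (fun z => PBc c Y X z ^ K) L δ σ1 (B * G) ((PBc_diff c Y X).pow K) hδ hδ1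
    (by linarith) (by linarith) (by positivity) (by
      intro m hm
      obtain ⟨z, h1, h2, h3, h4⟩ := hz m hm
      refine ⟨z, h1, h2, h3, ?_⟩
      change 1 ≤ ‖PBc c Y X z ^ K‖
      rw [norm_pow]
      exact one_le_pow₀ h4) (by
      intro u v hu hu5 hv
      have h1 := hmg_block c hc1 (B := B) ((u : ℂ) + v * I) L hY hX hXY hXK hσ1 (by simpa using hu) hB0 hrow
      exact h1.trans (mul_le_mul_of_nonneg_left hGb hB0))
  have h1 : C2 / δ ^ 2 * (B * G) = A0 * (5 * N ^ (s + e) + L.card * N ^ (-e)) := by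
    rw [hA0, hB, hG]
    have e1 : N ^ (s + e) = N ^ s * N ^ e := Real.rpow_add hN0 _ _
    have e2 : N ^ (-e) = N ^ s * N ^ e * N ^ (-(s + 2 * e)) := by
      rw [← Real.rpow_add hN0, ← Real.rpow_add hN0]
      congr 1
      ring
    rw [e1, e2]
    ring
  rw [h1] at hmain
  have h2 : A0 * N ^ (-e) ≤ 1 / 2 := by
    rw [Real.rpow_neg hN0.le]
    rw [mul_inv_le_iff₀ hNe0]
    linarith
  have hcard : (0 : ℝ) ≤ L.card := Nat.cast_nonneg _
  have h3 : A0 * (L.card * N ^ (-e)) ≤ L.card / 2 := by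
    calc A0 * (L.card * N ^ (-e)) = L.card * (A0 * N ^ (-e)) := by ring
      _ ≤ L.card * (1 / 2) := mul_le_mul_of_nonneg_left h2 hcard
      _ = _ := by ring
  have h4 : 0 < N ^ (s + e) := Real.rpow_pos_of_pos hN0 _
  have h5 : A0 * N ^ (s + e) ≤ (A0 + Real.exp 3 + 1) * N ^ (s + e) :=
    mul_le_mul_of_nonneg_right (by linarith) h4.le
  rw [mul_add] at hmain
  linarith

end Pool.Agent.Zk1.BIR
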