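import Mathlib

set_option autoImplicit false

/-!
# A class of L-functions with coefficients bounded on average (Rankin-Selberg)
-/

namespace Pool.Agent.Zk1.BIR

open Complex

/-- The coefficients `a(n)` of `-F'/F` are supported on the prime powers and bounded on average. -/
structure CB (D : ℝ) (a : ℕ → ℂ) (g : ℕ → ℝ) : Prop where
  pp : ∀ n : ℕ, ¬ IsPrimePow n → a n = 0
  g1 : ∀ p : ℕ, 1 ≤ g p
  gs : ∀ N : ℕ, ∑ p ∈ (Finset.range (N + 1)).filter Nat.Prime, g p ^ 2 ≤ D ^ 2 * N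
  ap : ∀ p : ℕ, p.Prime → ‖a p‖ ≤ g p * Real.log p
  apj : ∀ p : ℕ, p.Prime → ∀ j : ℕ, ‖a (p ^ (j + 2))‖ ≤ g p ^ 2 * Real.sqrt p ^ j * Real.log p

/-- analytic input about an L-function in the upper half plane: polynomial growth and
`-F'/F = ∑ a(n) n^(-s)` for `Re s > 1`. -/
structure LR (D A Q : ℝ) (F : ℂ → ℂ) (a : ℕ → ℂ) (g : ℕ → ℝ) : Prop where
  an : ∀ s : ℂ, 0 < s.im → AnalyticAt ℂ F s
  growth : ∀ s : ℂ, (1 / 16 : ℝ) ≤ s.re → s.re ≤ 4 → 1 ≤ s.im → ‖F s‖ ≤ A * (Q * s.im) ^ A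
  lower : ∀ t : ℝ, 1 ≤ t → A⁻¹ ≤ ‖F (⟨2, t⟩ : ℂ)‖
  nz : ∀ s : ℂ, 1 < s.re → 1 ≤ s.im → F s ≠ 0
  ld : ∀ s : ℂ, 1 < s.re → 1 ≤ s.im → deriv F s / F s = - ∑' n : ℕ, a n * (n : ℂ) ^ (-s)
  cb : CB D a g

end Pool.Agent.Zk1.BIR
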