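import Pool.Agent.Zk1.BIR.Def
import Pool.Agent.Zk1.BIL.Euler

set_option autoImplicit false

/-!
# The Euler product over the primes `p ≤ X` of an L-function with coefficients bounded on average
-/

namespace Pool.Agent.Zk1.BIR

open Complex Filter Topology MeasureTheory Set Metric
open Pool.Agent.Zk1.BI (Cr Cr_summable Cr_nonneg Ce Ce_nonneg)
open Pool.Agent.Zk1.BIL (hp PL PSc LL w_norm w_le pow_cpow)

/-- bounds for the coefficients of the logarithm -/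
structure CC (D : ℝ) (c : ℕ → ℂ) (g : ℕ → ℝ) : Prop where
  pp : ∀ n : ℕ, ¬ IsPrimePow n → c n = 0
  g1 : ∀ p : ℕ, 1 ≤ g p
  gs : ∀ N : ℕ, ∑ p ∈ (Finset.range (N + 1)).filter Nat.Prime, g p ^ 2 ≤ D ^ 2 * N
  cp : ∀ p : ℕ, p.Prime → ‖c p‖ ≤ g p
  cpj : ∀ p : ℕ, p.Prime → ∀ j : ℕ, ‖c (p ^ (j + 2))‖ ≤ g p ^ 2 * Real.sqrt p ^ j

/-- Abel summation -/
lemma abel {w f : ℕ → ℝ} {M : ℝ} (h : ∀ N : ℕ, ∑ n ∈ Finset.range (N + 1), w n ≤ M * N)
    (hw0 : w 0 = 0) (f0 : f 0 = 0) (hf : ∀ n, 1 ≤ n → f (n + 1) ≤ f n) (hf0 : ∀ n, 0 ≤ f n) (N : ℕ) :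
    ∑ n ∈ Finset.range (N + 1), w n * f n ≤ M * ∑ n ∈ Finset.range (N + 1), f n := by
  have key : (M * N - ∑ n ∈ Finset.range (N + 1), w n) * f N ≤
      M * ∑ n ∈ Finset.range (N + 1), f n - ∑ n ∈ Finset.range (N + 1), w n * f n := by
    induction N with
    | zero => simp [f0, hw0]
    | succ N ih =>
      rw [Finset.sum_range_succ w, Finset.sum_range_succ f, Finset.sum_range_succ (fun n => w n * f n)]
      have h1 : (M * N - ∑ n ∈ Finset.range (N + 1), w n) * f (N + 1) ≤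
          (M * N - ∑ n ∈ Finset.range (N + 1), w n) * f N := by
        rcases Nat.eq_zero_or_pos N with rfl | hN
        · simp [hw0]
        · exact mul_le_mul_of_nonneg_left (hf N hN) (by linarith [h N])
      push_cast
      linarith
  have h2 : 0 ≤ (M * N - ∑ n ∈ Finset.range (N + 1), w n) * f N :=
    mul_nonneg (by linarith [h N]) (hf0 N)
  linarith

variable {D : ℝ} {c : ℕ → ℂ} {g : ℕ → ℝ}

lemma CC.sum_le (h : CC D c g) {f : ℕ → ℝ} (f0 : f 0 = 0) (hf : ∀ n, 1 ≤ n → f (n + 1) ≤ f n)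
    (hf0 : ∀ n, 0 ≤ f n) (N : ℕ) :
    ∑ n ∈ Finset.range (N + 1), (if n.Prime then g n ^ 2 * f n else 0) ≤ D ^ 2 * ∑ n ∈ Finset.range (N + 1), f n := by
  have h1 := abel (w := fun n => if n.Prime then g n ^ 2 else 0) (f := f) (M := D ^ 2) (by
    intro N
    rw [← Finset.sum_filter]
    exact h.gs N) (by simp [Nat.not_prime_zero]) f0 hf hf0 N
  refine le_trans (le_of_eq (Finset.sum_congr rfl fun n _ => ?_)) h1
  split_ifs
  · rfl
  · rw [zero_mul]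

lemma pow_anti {a : ℝ} (ha : 0 < a) (n : ℕ) (hn : 1 ≤ n) : 1 / (((n + 1 : ℕ) : ℝ)) ^ a ≤ 1 / (n : ℝ) ^ a := by
  have hn0 : (0 : ℝ) < n := by exact_mod_cast hn
  apply one_div_le_one_div_of_le (by positivity)
  apply Real.rpow_le_rpow hn0.le _ ha.le
  push_cast
  linarith

/-- the sum of the squares against a power -/
lemma CC.sq_sum (h : CC D c g) {a : ℝ} (ha : 1 < a) (N : ℕ) :
    ∑ n ∈ Finset.range (N + 1), (if n.Prime then g n ^ 2 * (1 / (n : ℝ) ^ a) else 0) ≤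
      D ^ 2 * ∑' n : ℕ, 1 / (n : ℝ) ^ a := by
  refine (h.sum_le (f := fun n : ℕ => 1 / (n : ℝ) ^ a) (by
    simp only [CharP.cast_eq_zero]
    rw [Real.zero_rpow (by linarith), div_zero]) (fun n hn => pow_anti (by linarith) n hn)
    (fun n => by positivity) N).trans ?_
  apply mul_le_mul_of_nonneg_left _ (by positivity)
  exact (Real.summable_one_div_nat_rpow.mpr ha).sum_le_tsum _ fun n _ => by positivity

/-- the constant of the geometric series -/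
noncomputable def Kc (e : ℝ) : ℝ := (1 - (2 : ℝ) ^ (-e))⁻¹

lemma two_lt {e : ℝ} (he : 0 < e) : (2 : ℝ) ^ (-e) < 1 :=
  Real.rpow_lt_one_of_one_lt_of_neg (by norm_num) (by linarith)

lemma Kc_pos {e : ℝ} (he : 0 < e) : 0 < Kc e := inv_pos.2 (by linarith [two_lt he])

lemma w_bd {p : ℕ} (hp : p.Prime) {e : ℝ} (he : 0 < e) {s : ℂ} (hs : 1 / 2 + e ≤ s.re) :
    Real.sqrt p * ‖(p : ℂ) ^ (-s)‖ ≤ (2 : ℝ) ^ (-e) := by
  have hp0 : (0 : ℝ) < p := by exact_mod_cast hp.pos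
  have h2 : (2 : ℝ) ≤ p := by exact_mod_cast hp.two_le
  rw [w_norm hp, Real.sqrt_eq_rpow, ← Real.rpow_add hp0]
  calc (p : ℝ) ^ (1 / 2 + -s.re) ≤ (p : ℝ) ^ (-e) :=
        Real.rpow_le_rpow_of_exponent_le (by linarith) (by linarith)
    _ ≤ (2 : ℝ) ^ (-e) := Real.rpow_le_rpow_of_nonpos (by norm_num) h2 (by linarith)

lemma w_one {p : ℕ} (hp : p.Prime) {s : ℂ} (hs : 0 ≤ s.re) : ‖(p : ℂ) ^ (-s)‖ ≤ 1 := by
  rw [w_norm hp]
  exact Real.rpow_le_one_of_one_le_of_nonpos (by exact_mod_cast hp.one_lt.le) (by linarith)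

lemma CC.term_bd (h : CC D c g) {p : ℕ} (hpp : p.Prime) {e : ℝ} (he : 0 < e) {s : ℂ} (hs : 1 / 2 + e ≤ s.re) (k : ℕ) :
    ‖c (p ^ (k + 2)) * ((p : ℂ) ^ (-s)) ^ (k + 2)‖ ≤ ((2 : ℝ) ^ (-e)) ^ k * (g p ^ 2 * ‖(p : ℂ) ^ (-s)‖ ^ 2) := by
  rw [norm_mul, norm_pow]
  have h1 := h.cpj p hpp k
  have h2 : (Real.sqrt p * ‖(p : ℂ) ^ (-s)‖) ^ k ≤ ((2 : ℝ) ^ (-e)) ^ k :=
    pow_le_pow_left₀ (by positivity) (w_bd hpp he hs) k
  calc ‖c (p ^ (k + 2))‖ * ‖(p : ℂ) ^ (-s)‖ ^ (k + 2) ≤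
        (g p ^ 2 * Real.sqrt p ^ k) * ‖(p : ℂ) ^ (-s)‖ ^ (k + 2) := by gcongr
    _ = (Real.sqrt p * ‖(p : ℂ) ^ (-s)‖) ^ k * (g p ^ 2 * ‖(p : ℂ) ^ (-s)‖ ^ 2) := by
        rw [mul_pow]
        ring
    _ ≤ _ := mul_le_mul_of_nonneg_right h2 (by positivity)

lemma CC.sum2 (h : CC D c g) {p : ℕ} (hpp : p.Prime) {e : ℝ} (he : 0 < e) {s : ℂ} (hs : 1 / 2 + e ≤ s.re) :
    Summable fun k : ℕ => c (p ^ (k + 2)) * ((p : ℂ) ^ (-s)) ^ (k + 2) :=
  Summable.of_norm_bounded ((summable_geometric_of_lt_one (by positivity) (two_lt he)).mul_right _)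
    (h.term_bd hpp he hs)

lemma CC.sum1 (h : CC D c g) {p : ℕ} (hpp : p.Prime) {e : ℝ} (he : 0 < e) {s : ℂ} (hs : 1 / 2 + e ≤ s.re) :
    Summable fun k : ℕ => c (p ^ (k + 1)) * ((p : ℂ) ^ (-s)) ^ (k + 1) :=
  (summable_nat_add_iff 1).1 (h.sum2 hpp he hs)

lemma CC.hp_eq (h : CC D c g) {p : ℕ} (hpp : p.Prime) {s : ℂ} (hs : 1 / 2 < s.re) :
    hp c p s = c p * (p : ℂ) ^ (-s) + ∑' k : ℕ, c (p ^ (k + 2)) * ((p : ℂ) ^ (-s)) ^ (k + 2) := by
  unfold hp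
  have h1 := h.sum1 hpp (e := s.re - 1 / 2) (by linarith) (s := s) (by linarith)
  rw [h1.tsum_eq_zero_add]
  simp only [zero_add, pow_one]

lemma CC.hp_sub (h : CC D c g) {p : ℕ} (hpp : p.Prime) {e : ℝ} (he : 0 < e) {s : ℂ} (hs : 1 / 2 + e ≤ s.re) :
    ‖hp c p s - c p * (p : ℂ) ^ (-s)‖ ≤ Kc e * (g p ^ 2 * ‖(p : ℂ) ^ (-s)‖ ^ 2) := by
  rw [h.hp_eq hpp (by linarith), add_sub_cancel_left]
  exact tsum_of_norm_bounded ((hasSum_geometric_of_lt_one (by positivity) (two_lt he)).mul_right _)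
    (h.term_bd hpp he hs)

lemma CC.hp_diff (h : CC D c g) {p : ℕ} (hpp : p.Prime) {s : ℂ} (hs : 1 / 2 < s.re) :
    DifferentiableAt ℂ (hp c p) s := by
  obtain ⟨e, he⟩ : ∃ e : ℝ, e = (s.re - 1 / 2) / 2 := ⟨_, rfl⟩
  have he0 : 0 < e := by rw [he]; linarith
  have hU : IsOpen {z : ℂ | 1 / 2 + e < z.re} := isOpen_lt continuous_const Complex.continuous_re
  have h0 : (p : ℂ) ≠ 0 := by exact_mod_cast hpp.ne_zero
  have hg1 := h.g1 p
  have h1 : DifferentiableOn ℂ (fun z => ∑' k : ℕ, c (p ^ (k + 1)) * ((p : ℂ) ^ (-z)) ^ (k + 1))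
      {z : ℂ | 1 / 2 + e < z.re} := by
    have h2 : DifferentiableOn ℂ (fun z => ∑' k : ℕ, c (p ^ (k + 2)) * ((p : ℂ) ^ (-z)) ^ (k + 2))
        {z : ℂ | 1 / 2 + e < z.re} := by
      apply differentiableOn_tsum_of_summable_norm (u := fun k : ℕ => ((2 : ℝ) ^ (-e)) ^ k * g p ^ 2)
        ((summable_geometric_of_lt_one (by positivity) (two_lt he0)).mul_right _) _ hU
      · intro k z hz
        have hz' : 1 / 2 + e < z.re := hz
        refine (h.term_bd hpp he0 hz'.le k).trans ?_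
        apply mul_le_mul_of_nonneg_left _ (by positivity)
        have h3 : ‖(p : ℂ) ^ (-z)‖ ^ 2 ≤ 1 := pow_le_one₀ (norm_nonneg _) (w_one hpp (by linarith))
        have h4 : 0 ≤ g p ^ 2 := by positivity
        nlinarith
      · intro k
        apply DifferentiableOn.const_mul
        apply DifferentiableOn.pow
        intro z _
        exact ((differentiableAt_id.neg).const_cpow (Or.inl h0)).differentiableWithinAt
    have h3 : DifferentiableOn ℂ (fun z => c p * (p : ℂ) ^ (-z)) {z : ℂ | 1 / 2 + e < z.re} := by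
      apply DifferentiableOn.const_mul
      intro z _
      exact ((differentiableAt_id.neg).const_cpow (Or.inl h0)).differentiableWithinAt
    refine (h3.add h2).congr fun z hz => ?_
    have hz' : 1 / 2 + e < z.re := hz
    exact h.hp_eq hpp (by linarith)
  exact h1.differentiableAt (hU.mem_nhds (by
    change 1 / 2 + e < s.re
    rw [he]
    linarith))

lemma CC.PL_diff (h : CC D c g) (X : ℝ) {s : ℂ} (hs : 1 / 2 < s.re) :
    DifferentiableAt ℂ (PL c X) s := by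
  unfold PL
  exact DifferentiableAt.fun_sum fun p hp => h.hp_diff (Finset.mem_filter.1 hp).2 hs

lemma CC.PL_ana (h : CC D c g) (X : ℝ) {s : ℂ} (hs : 1 / 2 < s.re) :
    AnalyticAt ℂ (PL c X) s := by
  have hU : IsOpen {z : ℂ | 1 / 2 < z.re} := isOpen_lt continuous_const Complex.continuous_re
  have h1 : DifferentiableOn ℂ (PL c X) {z : ℂ | 1 / 2 < z.re} := fun z hz =>
    (h.PL_diff X hz).differentiableWithinAt
  exact h1.analyticAt (hU.mem_nhds hs)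

lemma CC.PL_sub (h : CC D c g) (X : ℝ) {e : ℝ} (he : 0 < e) {s : ℂ} (hs : 1 / 2 + e ≤ s.re) :
    ‖PL c X s - PSc c X s‖ ≤ Kc e * (D ^ 2 * Ce e) := by
  unfold PL PSc
  rw [← Finset.sum_sub_distrib]
  refine (norm_sum_le _ _).trans ?_
  have h1 : ∑ p ∈ (Finset.range (⌊X⌋₊ + 1)).filter Nat.Prime, ‖hp c p s - c p * (p : ℂ) ^ (-s)‖ ≤
      ∑ p ∈ (Finset.range (⌊X⌋₊ + 1)).filter Nat.Prime, Kc e * (g p ^ 2 * (1 / (p : ℝ) ^ (1 + 2 * e))) := by
    refine Finset.sum_le_sum fun p hp => ?_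
    have hpp := (Finset.mem_filter.1 hp).2
    refine (h.hp_sub hpp he hs).trans ?_
    apply mul_le_mul_of_nonneg_left _ (Kc_pos he).le
    apply mul_le_mul_of_nonneg_left _ (by positivity)
    have hp0 : (0 : ℝ) < p := by exact_mod_cast hpp.pos
    rw [w_norm hpp, ← Real.rpow_natCast, ← Real.rpow_mul hp0.le, one_div, ← Real.rpow_neg hp0.le]
    apply Real.rpow_le_rpow_of_exponent_le (by exact_mod_cast hpp.one_lt.le)
    push_cast
    linarith
  refine h1.trans ?_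
  rw [← Finset.mul_sum, Finset.sum_filter]
  apply mul_le_mul_of_nonneg_left _ (Kc_pos he).le
  exact h.sq_sum (by linarith) _

/-! ### to the right of `6/5` -/

lemma Kc_le : Kc (7 / 10) ≤ 4 := by
  unfold Kc
  have h1 : (2 : ℝ) ^ (-(7 / 10) : ℝ) ≤ 3 / 4 := by
    calc (2 : ℝ) ^ (-(7 / 10) : ℝ) ≤ (2 : ℝ) ^ (-(1 / 2 : ℝ)) :=
          Real.rpow_le_rpow_of_exponent_le (by norm_num) (by norm_num)
      _ ≤ 3 / 4 := by
          rw [Real.rpow_neg (by norm_num), ← Real.sqrt_eq_rpow]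
          have h1 : (4 / 3 : ℝ) ≤ Real.sqrt 2 := by
            apply Real.le_sqrt_of_sq_le
            norm_num
          rw [inv_le_comm₀ (by positivity) (by norm_num)]
          norm_num at h1 ⊢
          linarith
  rw [inv_le_comm₀ (by linarith) (by norm_num)]
  linarith

lemma CC.hp_le (h : CC D c g) {p : ℕ} (hpp : p.Prime) {s : ℂ} (hs : 6 / 5 ≤ s.re) :
    ‖hp c p s‖ ≤ 5 * (g p ^ 2 * (1 / (p : ℝ) ^ s.re)) := by
  have h1 := h.hp_sub hpp (e := 7 / 10) (by norm_num) (s := s) (by linarith)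
  have h2 := h.cp p hpp
  have h3 := h.g1 p
  have h4 : ‖(p : ℂ) ^ (-s)‖ = 1 / (p : ℝ) ^ s.re := by
    rw [w_norm hpp, Real.rpow_neg (Nat.cast_nonneg _), one_div]
  have h5 := w_one hpp (s := s) (by linarith)
  have h6 := norm_nonneg ((p : ℂ) ^ (-s))
  have h7 : ‖hp c p s‖ ≤ ‖hp c p s - c p * (p : ℂ) ^ (-s)‖ + ‖c p * (p : ℂ) ^ (-s)‖ := by
    have := norm_add_le (hp c p s - c p * (p : ℂ) ^ (-s)) (c p * (p : ℂ) ^ (-s))
    rwa [sub_add_cancel] at this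
  rw [norm_mul] at h7
  rw [← h4]
  have h8 : ‖(p : ℂ) ^ (-s)‖ ^ 2 ≤ ‖(p : ℂ) ^ (-s)‖ := by nlinarith
  have h9 : Kc (7 / 10) * (g p ^ 2 * ‖(p : ℂ) ^ (-s)‖ ^ 2) ≤ 4 * (g p ^ 2 * ‖(p : ℂ) ^ (-s)‖) :=
    mul_le_mul Kc_le (mul_le_mul_of_nonneg_left h8 (by positivity)) (by positivity) (by norm_num)
  have h10 : ‖c p‖ * ‖(p : ℂ) ^ (-s)‖ ≤ g p ^ 2 * ‖(p : ℂ) ^ (-s)‖ :=
    mul_le_mul_of_nonneg_right (by nlinarith) h6
  linarith

/-- the weights -/
noncomputable def wt (g : ℕ → ℝ) (n : ℕ) : ℝ := if n.Prime then g n ^ 2 * (1 / (n : ℝ) ^ (6 / 5 : ℝ)) else 0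

lemma wt_nonneg (g : ℕ → ℝ) (n : ℕ) : 0 ≤ wt g n := by
  unfold wt
  split_ifs
  · positivity
  · exact le_rfl

lemma CC.wt_range (h : CC D c g) (N : ℕ) : ∑ n ∈ Finset.range N, wt g n ≤ D ^ 2 * Cr := by
  have h1 : ∑ n ∈ Finset.range N, wt g n ≤ ∑ n ∈ Finset.range (N + 1), wt g n :=
    Finset.sum_le_sum_of_subset_of_nonneg (Finset.range_mono (Nat.le_succ _)) fun n _ _ => wt_nonneg g n
  exact h1.trans (h.sq_sum (a := 6 / 5) (by norm_num) N)

lemma CC.wt_summable (h : CC D c g) : Summable (wt g) :=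
  summable_of_sum_range_le (wt_nonneg g) h.wt_range

lemma CC.wt_tsum (h : CC D c g) : ∑' n, wt g n ≤ D ^ 2 * Cr :=
  Real.tsum_le_of_sum_range_le (wt_nonneg g) h.wt_range

lemma CC.LL_summable (h : CC D c g) {s : ℂ} (hs : 6 / 5 ≤ s.re) :
    Summable fun n : ℕ => c n * (n : ℂ) ^ (-s) := by
  apply Summable.of_norm
  have hsupp : ∀ n : ℕ, ¬ IsPrimePow n → ‖c n * (n : ℂ) ^ (-s)‖ = 0 := by
    intro n hn
    rw [h.pp n hn, zero_mul, norm_zero]
  refine (summable_subtype_iff_indicator (s := {n | IsPrimePow n}).mp ?_).congr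
      fun n ↦ Set.indicator_apply_eq_self.mpr fun (hn : ¬ IsPrimePow n) ↦ hsupp n hn
  refine (Nat.Primes.prodNatEquiv.summable_iff (f := (fun n : ℕ => ‖c n * (n : ℂ) ^ (-s)‖) ∘
    (Subtype.val : {n : ℕ // IsPrimePow n} → ℕ))).1 ?_
  have h1 : Summable fun x : Nat.Primes × ℕ => (2 * wt g (x.1 : ℕ)) * (3 / 4 : ℝ) ^ x.2 := by
    have h2 : Summable fun p : Nat.Primes => 2 * wt g (p : ℕ) := (h.wt_summable.subtype _).mul_left 2
    exact h2.mul_of_nonneg (summable_geometric_of_lt_one (by norm_num) (by norm_num))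
      (fun p => by have := wt_nonneg g (p : ℕ); positivity) (fun k => by positivity)
  refine h1.of_nonneg_of_le (fun x => norm_nonneg _) ?_
  rintro ⟨⟨p, hpp⟩, k⟩
  simp only [Function.comp_apply, Nat.Primes.prodNatEquiv_apply]
  change ‖c (p ^ (k + 1)) * ((p ^ (k + 1) : ℕ) : ℂ) ^ (-s)‖ ≤ 2 * wt g p * (3 / 4) ^ k
  rw [pow_cpow]
  have hwt : wt g p = g p ^ 2 * (1 / (p : ℝ) ^ (6 / 5 : ℝ)) := by
    unfold wt
    rw [if_pos hpp]
  have hp1 : (1 : ℝ) ≤ p := by exact_mod_cast hpp.one_lt.le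
  have h4 : ‖(p : ℂ) ^ (-s)‖ ≤ 1 / (p : ℝ) ^ (6 / 5 : ℝ) := by
    rw [w_norm hpp, Real.rpow_neg (Nat.cast_nonneg _), one_div]
    apply inv_anti₀ (by positivity)
    exact Real.rpow_le_rpow_of_exponent_le hp1 hs
  have h5 := w_one hpp (s := s) (by linarith)
  have h6 := norm_nonneg ((p : ℂ) ^ (-s))
  have h3 := h.g1 p
  rcases Nat.eq_zero_or_pos k with rfl | hk
  · rw [zero_add, pow_one, pow_one, pow_zero, mul_one, norm_mul, hwt]
    have h7 := h.cp p hpp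
    calc ‖c p‖ * ‖(p : ℂ) ^ (-s)‖ ≤ g p ^ 2 * (1 / (p : ℝ) ^ (6 / 5 : ℝ)) := by
          apply mul_le_mul (by nlinarith) h4 h6 (by positivity)
      _ ≤ 2 * (g p ^ 2 * (1 / (p : ℝ) ^ (6 / 5 : ℝ))) := by
          have : 0 ≤ g p ^ 2 * (1 / (p : ℝ) ^ (6 / 5 : ℝ)) := by positivity
          linarith
  · obtain ⟨j, rfl⟩ : ∃ j, k = j + 1 := ⟨k - 1, by omega⟩
    have h7 := h.term_bd hpp (e := 7 / 10) (by norm_num) (s := s) (by linarith) j
    rw [show j + 1 + 1 = j + 2 from rfl]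
    refine h7.trans ?_
    have h8 : (2 : ℝ) ^ (-(7 / 10) : ℝ) ≤ 3 / 4 := by
      have := Kc_le
      unfold Kc at this
      have h9 := two_lt (show (0 : ℝ) < 7 / 10 by norm_num)
      rw [inv_le_comm₀ (by linarith) (by norm_num)] at this
      linarith
    have h9 : ((2 : ℝ) ^ (-(7 / 10) : ℝ)) ^ j ≤ (3 / 4) ^ j := pow_le_pow_left₀ (by positivity) h8 j
    have h10 : g p ^ 2 * ‖(p : ℂ) ^ (-s)‖ ^ 2 ≤ wt g p := by
      rw [hwt]
      apply mul_le_mul_of_nonneg_left _ (by positivity)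
      nlinarith
    calc ((2 : ℝ) ^ (-(7 / 10) : ℝ)) ^ j * (g p ^ 2 * ‖(p : ℂ) ^ (-s)‖ ^ 2) ≤ (3 / 4) ^ j * wt g p :=
          mul_le_mul h9 h10 (by positivity) (by positivity)
      _ ≤ 2 * wt g p * (3 / 4) ^ (j + 1) := by
          rw [pow_succ]
          have := wt_nonneg g p
          have h11 : 0 ≤ (3 / 4 : ℝ) ^ j * wt g p := by positivity
          linarith

lemma CC.LL_primes (h : CC D c g) {s : ℂ}
    (hs : 6 / 5 ≤ s.re) : LL c s = ∑' n : ℕ, if n.Prime then hp c n s else 0 := by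
  unfold LL
  rw [tsum_eq_tsum_primes_of_support_subset_prime_powers (h.LL_summable hs) (by
    intro n hn
    by_contra hnot
    apply hn
    change c n * (n : ℂ) ^ (-s) = 0
    rw [h.pp n hnot, zero_mul])]
  have h1 : ∀ p : Nat.Primes, ∑' k : ℕ, c ((p : ℕ) ^ (k + 1)) * (((p : ℕ) ^ (k + 1) : ℕ) : ℂ) ^ (-s) =
      hp c (p : ℕ) s := by
    intro p
    unfold hp
    refine tsum_congr fun k => ?_
    congr 1
    exact pow_cpow (p : ℕ) (k + 1) s
  rw [tsum_congr h1]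
  have h2 := tsum_subtype {n : ℕ | n.Prime} (fun n => hp c n s)
  have h3 : ∑' p : Nat.Primes, hp c (p : ℕ) s = ∑' x : {n : ℕ | n.Prime}, hp c (x : ℕ) s := rfl
  rw [h3, h2]
  refine tsum_congr fun n => ?_
  rw [Set.indicator_apply]
  rfl

lemma CC.hpn_le (h : CC D c g) {s : ℂ} (hs : 6 / 5 ≤ s.re) (n : ℕ) :
    ‖(if n.Prime then hp c n s else 0)‖ ≤ 5 * wt g n := by
  unfold wt
  split_ifs with hn
  · refine (h.hp_le hn hs).trans ?_
    apply mul_le_mul_of_nonneg_left _ (by norm_num)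
    apply mul_le_mul_of_nonneg_left _ (by positivity)
    apply one_div_le_one_div_of_le (by
      have : (0 : ℝ) < n := by exact_mod_cast hn.pos
      positivity)
    exact Real.rpow_le_rpow_of_exponent_le (by exact_mod_cast hn.one_lt.le) hs
  · rw [norm_zero, mul_zero]

lemma CC.LL_le (h : CC D c g) {s : ℂ} (hs : 6 / 5 ≤ s.re) : ‖LL c s‖ ≤ 5 * (D ^ 2 * Cr) := by
  rw [h.LL_primes hs]
  refine (tsum_of_norm_bounded (h.wt_summable.hasSum.mul_left 5) (h.hpn_le hs)).trans ?_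
  exact mul_le_mul_of_nonneg_left h.wt_tsum (by norm_num)

/-- the tail of the Euler product -/
lemma CC.LL_tail (h : CC D c g) {X : ℝ} (hX : 1 ≤ X) {s : ℂ}
    (hs : 6 / 5 ≤ s.re) : ‖LL c s - PL c X s‖ ≤ 5 * (D ^ 2 * Cr) * X ^ (-(s.re - 6 / 5)) := by
  have hX0 : 0 < X := by linarith
  rw [h.LL_primes hs]
  have hsum : Summable fun n : ℕ => (if n.Prime then hp c n s else 0) :=
    Summable.of_norm_bounded (h.wt_summable.mul_left 5) (h.hpn_le hs)
  have hS1 : HasSum (fun n => if n ∈ (Finset.range (⌊X⌋₊ + 1)).filter Nat.Prime then hp c n s else 0) (PL c X s) := by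
    have h10 : HasSum (fun n => if n ∈ (Finset.range (⌊X⌋₊ + 1)).filter Nat.Prime then hp c n s else 0)
        (∑ n ∈ (Finset.range (⌊X⌋₊ + 1)).filter Nat.Prime,
          (fun n => if n ∈ (Finset.range (⌊X⌋₊ + 1)).filter Nat.Prime then hp c n s else 0) n) :=
      hasSum_sum_of_ne_finset_zero (fun b hb => by simp only [if_neg hb])
    have h11 : (∑ n ∈ (Finset.range (⌊X⌋₊ + 1)).filter Nat.Prime,
          (fun n => if n ∈ (Finset.range (⌊X⌋₊ + 1)).filter Nat.Prime then hp c n s else 0) n) = PL c X s := by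
      unfold PL
      refine Finset.sum_congr rfl fun n hn => ?_
      simp only [if_pos hn]
    rwa [h11] at h10
  have hS2 := hsum.hasSum.sub hS1
  have hg := h.wt_summable.hasSum.mul_left (5 * X ^ (-(s.re - 6 / 5)))
  have h7 := tsum_of_norm_bounded hg (f := fun n => (if n.Prime then hp c n s else 0) -
    (if n ∈ (Finset.range (⌊X⌋₊ + 1)).filter Nat.Prime then hp c n s else 0)) (by
    intro n
    have hXp : 0 < X ^ (-(s.re - 6 / 5)) := Real.rpow_pos_of_pos hX0 _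
    have hwn := wt_nonneg g n
    by_cases hn : n ∈ (Finset.range (⌊X⌋₊ + 1)).filter Nat.Prime
    · rw [if_pos hn, if_pos (Finset.mem_filter.1 hn).2, sub_self, norm_zero]; positivity
    rw [if_neg hn, sub_zero]
    by_cases hpn : n.Prime
    swap
    · rw [if_neg hpn, norm_zero]; positivity
    rw [if_pos hpn]
    refine (h.hp_le hpn hs).trans ?_
    unfold wt
    rw [if_pos hpn]
    have hnX : X < n := by
      by_contra hcon
      push Not at hcon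
      apply hn
      rw [Finset.mem_filter, Finset.mem_range]
      exact ⟨Nat.lt_succ_of_le (Nat.le_floor hcon), hpn⟩
    have hnpos : (0 : ℝ) < n := hX0.trans hnX
    have h6 : (n : ℝ) ^ s.re = (n : ℝ) ^ (s.re - 6 / 5) * (n : ℝ) ^ (6 / 5 : ℝ) := by
      rw [← Real.rpow_add hnpos]
      congr 1
      ring
    have h8 : 1 / (n : ℝ) ^ s.re ≤ X ^ (-(s.re - 6 / 5)) * (1 / (n : ℝ) ^ (6 / 5 : ℝ)) := by
      rw [h6, one_div, mul_inv, Real.rpow_neg hX0.le, one_div]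
      refine mul_le_mul_of_nonneg_right ?_ (by positivity)
      apply inv_anti₀ (by positivity)
      exact Real.rpow_le_rpow hX0.le hnX.le (by linarith)
    calc 5 * (g n ^ 2 * (1 / (n : ℝ) ^ s.re)) ≤
          5 * (g n ^ 2 * (X ^ (-(s.re - 6 / 5)) * (1 / (n : ℝ) ^ (6 / 5 : ℝ)))) := by gcongr
      _ = _ := by ring)
  rw [hS2.tsum_eq] at h7
  refine h7.trans ?_
  have hXp : 0 < X ^ (-(s.re - 6 / 5)) := Real.rpow_pos_of_pos hX0 _
  calc 5 * X ^ (-(s.re - 6 / 5)) * ∑' n, wt g n ≤ 5 * X ^ (-(s.re - 6 / 5)) * (D ^ 2 * Cr) :=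
        mul_le_mul_of_nonneg_left h.wt_tsum (by positivity)
    _ = _ := by ring

end Pool.Agent.Zk1.BIR
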