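import Pool.Agent.Zk1.BIR.Bad
import Pool.Agent.Zk1.BIR.Loc
import Pool.Agent.Zk1.BIL.Fin

/-!
# Density outside clusters for the class `LR`: assembly
-/

set_option autoImplicit false

namespace Pool.Agent.Zk1.BIR

open Complex Finset
open Pool.Agent.Zk1.BD (DE)
open Pool.Agent.Zk1.BI (card_interval DE_nonneg exponents)
open Pool.Agent.Zk1.BIL (num near num_mono PSc sparse sparse_mono)

variable {D A Q : ℝ} {F : ℂ → ℂ} {a : ℕ → ℂ} {g : ℕ → ℝ}

lemma LR.sparse_finite (h : LR D A Q F a g) (hA : 1 ≤ A) {c ε σ T H : ℝ} (hT : 1 ≤ T) :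
    (sparse F c ε σ T H).Finite :=
  (h.fin hA σ T (T + H) hT).subset fun _ h => ⟨h.1, h.2.1, h.2.2.1.le, h.2.2.2.1⟩

/-- zeros in windows -/
lemma cnt_windows (A : ℝ) (hA : 1 ≤ A) : ∃ K : ℝ, 0 < K ∧ ∀ (D Q : ℝ) (F : ℂ → ℂ) (a : ℕ → ℂ) (g : ℕ → ℝ), 1 ≤ Q → LR D A Q F a g →
    ∀ (T : ℝ) (Z : Set ℂ) (M : Finset ℕ), 3 ≤ T →
    (∀ ρ ∈ Z, F ρ = 0 ∧ 1 / 2 ≤ ρ.re ∧ T < ρ.im ∧ ρ.im ≤ 2 * T) →
    (∀ ρ ∈ Z, ⌈ρ.im⌉₊ - 1 ∈ M) → (num F Z : ℝ) ≤ M.card * (K * Real.log (Q * T)) := by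
  classical
  obtain ⟨K, hK, hcnt⟩ := count A hA
  refine ⟨3 * K, by positivity, ?_⟩
  intro D Q F a g hQ h T Z M hT hZ hM
  have hT0 : 0 < T := by linarith
  have hQT : 3 ≤ Q * T := by nlinarith
  have hlog1 : 1 ≤ Real.log (Q * T) := by
    rw [Real.le_log_iff_exp_le (by linarith)]
    have := Real.exp_one_lt_d9
    linarith
  have hfin : Z.Finite := (h.fin hA (1 / 2) T (2 * T) (by linarith)).subset fun ρ hρ =>
    ⟨(hZ ρ hρ).1, (hZ ρ hρ).2.1, (hZ ρ hρ).2.2.1.le, (hZ ρ hρ).2.2.2⟩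
  unfold num
  rw [finsum_mem_eq_finite_toFinset_sum _ hfin]
  push_cast
  rw [← Finset.sum_fiberwise_of_maps_to (s := hfin.toFinset) (t := M) (g := fun ρ : ℂ => ⌈ρ.im⌉₊ - 1)
    (fun ρ hρ => hM ρ (hfin.mem_toFinset.1 hρ))]
  have h1 : ∀ n ∈ M, ∑ ρ ∈ hfin.toFinset with ⌈ρ.im⌉₊ - 1 = n, (analyticOrderNatAt F ρ : ℝ) ≤
      3 * K * Real.log (Q * T) := by
    intro n _
    by_cases hne : (hfin.toFinset.filter (fun ρ : ℂ => ⌈ρ.im⌉₊ - 1 = n)).Nonempty
    · obtain ⟨ρ0, hρ0⟩ := hne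
      have key : ∀ ρ ∈ hfin.toFinset.filter (fun ρ : ℂ => ⌈ρ.im⌉₊ - 1 = n), F ρ = 0 ∧ 1 / 2 ≤ ρ.re ∧
          (n : ℝ) < ρ.im ∧ ρ.im ≤ n + 1 ∧ T < ρ.im ∧ ρ.im ≤ 2 * T := by
        intro ρ hρ
        obtain ⟨h2, h3⟩ := Finset.mem_filter.1 hρ
        obtain ⟨h4, h5, h6, h7⟩ := hZ ρ (hfin.mem_toFinset.1 h2)
        have hρ0' : 0 < ρ.im := by linarith
        have h8 : 0 < ⌈ρ.im⌉₊ := Nat.ceil_pos.2 hρ0'
        have h9 := Nat.le_ceil ρ.im
        have h10 := Nat.ceil_lt_add_one hρ0'.le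
        have h11 : (n : ℝ) = (⌈ρ.im⌉₊ : ℝ) - 1 := by
          rw [← h3, Nat.cast_sub h8]
          push_cast
          ring
        exact ⟨h4, h5, by linarith, by linarith, h6, h7⟩
      obtain ⟨-, -, k3, k4, k5, k6⟩ := key ρ0 hρ0
      have h2 := hcnt D Q F a g hQ h (n + 1) (hfin.toFinset.filter (fun ρ : ℂ => ⌈ρ.im⌉₊ - 1 = n)) (by
        have : (2 : ℝ) < n + 1 := by linarith
        have h3 : (2 : ℕ) < n + 1 := by exact_mod_cast this
        have h4 : (3 : ℕ) ≤ n + 1 := h3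
        exact_mod_cast h4) (by
        intro ρ hρ
        obtain ⟨m1, m2, m3, m4, -, -⟩ := key ρ hρ
        refine ⟨m1, m2, ?_⟩
        rw [abs_le]
        constructor <;> linarith)
      refine h2.trans ?_
      have h3 : Real.log (Q * (n + 1)) ≤ 3 * Real.log (Q * T) := by
        have h4 : Q * ((n : ℝ) + 1) ≤ (Q * T) ^ 3 := by
          have h5 : Q * ((n : ℝ) + 1) ≤ Q * (3 * T) := mul_le_mul_of_nonneg_left (by linarith) (by linarith)
          have h6 : Q * (3 * T) = 3 * (Q * T) := by ring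
          have h7 : 3 * (Q * T) ≤ (Q * T) ^ 3 := by nlinarith [sq_nonneg (Q * T)]
          linarith
        have h8 := Real.log_le_log (by positivity) h4
        rw [Real.log_pow] at h8
        push_cast at h8
        exact h8
      calc K * Real.log (Q * (n + 1)) ≤ K * (3 * Real.log (Q * T)) := mul_le_mul_of_nonneg_left h3 hK.le
        _ = _ := by ring
    · rw [Finset.not_nonempty_iff_eq_empty] at hne
      rw [hne, Finset.sum_empty]
      positivity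
  refine (Finset.sum_le_sum h1).trans (le_of_eq ?_)
  rw [Finset.sum_const, nsmul_eq_mul]

/-- the bound for one `k` -/
theorem fin_k (k : ℕ) (ε ε1 D A : ℝ) (hk : 1 ≤ k) (hε : 0 < ε) (hεone : ε ≤ 1) (hε1 : 0 < ε1) (hD : 1 ≤ D) (hA : 1 ≤ A) :
    ∃ c B C : ℝ, 0 < c ∧ 1 ≤ B ∧ 0 < C ∧ ∀ (Q : ℝ) (F : ℂ → ℂ) (a : ℕ → ℂ) (g : ℕ → ℝ), 1 ≤ Q → LR D A Q F a g →
      ∀ σ T H : ℝ, 1 - (1 / 2) ^ k ≤ σ → σ ≤ 1 → 3 ≤ T → 2 ≤ H → (Real.log (Q * T)) ^ B ≤ H →
      H ≤ T → (num F (sparse F c ε1 σ T H) : ℝ) ≤ C * H ^ (DE k σ + ε) := by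
  classical
  obtain ⟨δ, a1, hδ, ha1, hbad⟩ := bad k (ε / 2) D hk hD (by positivity) (by linarith)
  obtain ⟨e, he⟩ : ∃ e : ℝ, e = min (min δ ε1) (ε / 40) := ⟨_, rfl⟩
  have he0 : 0 < e := by rw [he]; exact lt_min (lt_min hδ hε1) (by positivity)
  have he40 : e ≤ ε / 40 := by rw [he]; exact min_le_right _ _
  have heδ : e ≤ δ := by rw [he]; exact (min_le_left _ _).trans (min_le_left _ _)
  have heε : e ≤ ε1 := by rw [he]; exact (min_le_left _ _).trans (min_le_right _ _)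
  obtain ⟨η, κ, B0, X0, hη, hη1, hκ, hB0, hX0, hloc⟩ := local_thm e D A he0 (by linarith) hA
  obtain ⟨a0, ha⟩ : ∃ a0 : ℝ, a0 = min a1 1 := ⟨_, rfl⟩
  have ha0 : 0 < a0 := by rw [ha]; exact lt_min ha1 one_pos
  have haa1 : a0 ≤ a1 := by rw [ha]; exact min_le_left _ _
  obtain ⟨C, hC, hbad⟩ := hbad a0 η ha0 haa1 hη hη1
  obtain ⟨C3, hC3, hwin⟩ := cnt_windows A hA
  obtain ⟨B, hB⟩ : ∃ B : ℝ, B = max (B0 / a0) (4 / ε) := ⟨_, rfl⟩
  have hBa : B0 / a0 ≤ B := by rw [hB]; exact le_max_left _ _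
  have hBε : 4 / ε ≤ B := by rw [hB]; exact le_max_right _ _
  have hB1 : 1 ≤ B := by
    refine le_trans ?_ hBε
    rw [le_div_iff₀ hε]
    linarith
  obtain ⟨H0, hH0⟩ : ∃ H0 : ℝ, H0 = X0 ^ (1 / a0) := ⟨_, rfl⟩
  have hH00 : 0 ≤ H0 := by rw [hH0]; positivity
  refine ⟨κ * a0, B, (2 * C + 3) * C3 + (H0 + 3) * (C3 * (H0 + 1)), by positivity, hB1, by positivity, ?_⟩
  intro Q F a g hQ hF σ T H hσ hσ1 hT hH2 hTH hHT
  have hDE0 := DE_nonneg hk hσ hσ1
  have hT0 : 0 < T := by linarith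
  have hHpos : 0 < H := by linarith
  have hH1 : 1 ≤ H := by linarith
  have hQT : 3 ≤ Q * T := by nlinarith
  have hlogT : 1 ≤ Real.log (Q * T) := by
    rw [Real.le_log_iff_exp_le (by linarith)]
    have := Real.exp_one_lt_d9
    linarith
  have hσ12 : 1 / 2 ≤ σ := by
    have h1 : (1 / 2 : ℝ) ^ k ≤ (1 / 2) ^ 1 := pow_le_pow_of_le_one (by norm_num) (by norm_num) hk
    norm_num at h1 hσ
    linarith
  set Z : Set ℂ := sparse F (κ * a0) ε1 σ T H with hZ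
  have hZsub : ∀ ρ ∈ Z, F ρ = 0 ∧ 1 / 2 ≤ ρ.re ∧ T < ρ.im ∧ ρ.im ≤ 2 * T := by
    intro s hs
    exact ⟨hs.1, hσ12.trans hs.2.1, hs.2.2.1, hs.2.2.2.1.trans (by linarith)⟩
  have hPe1 : 1 ≤ H ^ (DE k σ + ε) := Real.one_le_rpow hH1 (by linarith)
  -- the integers below ordinates of sparse zeros
  set Mf : Finset ℕ := (Finset.range (⌈2 * T⌉₊ + 1)).filter (fun n => ∃ ρ ∈ Z, (n : ℝ) < ρ.im ∧ ρ.im ≤ n + 1) with hMf
  set L : Finset ℤ := Mf.image (fun n : ℕ => (n : ℤ)) with hL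
  have hLcard : L.card = Mf.card := Finset.card_image_of_injective _ (fun x y h => by exact_mod_cast h)
  have hLm : ∀ m ∈ L, T - 1 ≤ m ∧ (m : ℝ) ≤ (T - 1) + (H + 1) ∧ ∃ ρ ∈ Z, (m : ℝ) < ρ.im ∧ ρ.im ≤ m + 1 := by
    intro m hm
    rw [hL, Finset.mem_image] at hm
    obtain ⟨n, hn, rfl⟩ := hm
    rw [hMf, Finset.mem_filter] at hn
    obtain ⟨-, ρ, hρ, h1, h2⟩ := hn
    have h3 := hρ.2.2.1
    have h4 := hρ.2.2.2.1
    push_cast
    exact ⟨by linarith, by linarith, ρ, hρ, h1, h2⟩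
  have hLtriv := card_interval L (T - 1) (H + 1) (by linarith) fun m hm => ⟨(hLm m hm).1, (hLm m hm).2.1⟩
  -- windows
  have hcnt := hwin D Q F a g hQ hF T Z Mf hT hZsub (by
    intro ρ hρ
    have hρ0 : 0 < ρ.im := by linarith [hρ.2.2.1]
    have h1 : 0 < ⌈ρ.im⌉₊ := Nat.ceil_pos.2 hρ0
    have h2 := Nat.le_ceil ρ.im
    have h3 := Nat.ceil_lt_add_one hρ0.le
    have h4 : ((⌈ρ.im⌉₊ - 1 : ℕ) : ℝ) = (⌈ρ.im⌉₊ : ℝ) - 1 := by
      rw [Nat.cast_sub h1]
      push_cast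
      ring
    rw [hMf, Finset.mem_filter, Finset.mem_range]
    refine ⟨?_, ρ, hρ, by rw [h4]; linarith, by rw [h4]; linarith⟩
    have h5 : ⌈ρ.im⌉₊ ≤ ⌈2 * T⌉₊ := Nat.ceil_le_ceil (hZsub ρ hρ).2.2.2
    omega)
  rcases lt_or_ge H H0 with hHH | hHH
  · -- small H
    have hlogB : Real.log (Q * T) ≤ (Real.log (Q * T)) ^ B := by
      calc Real.log (Q * T) = (Real.log (Q * T)) ^ (1 : ℝ) := (Real.rpow_one _).symm
        _ ≤ (Real.log (Q * T)) ^ B := Real.rpow_le_rpow_of_exponent_le hlogT hB1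
    have h1 : Real.log (Q * T) ≤ H0 + 1 := by linarith
    have h2 : (Mf.card : ℝ) ≤ H0 + 3 := by
      rw [← hLcard]
      linarith
    have h3 : (num F Z : ℝ) ≤ (H0 + 3) * (C3 * (H0 + 1)) := by
      refine hcnt.trans ?_
      apply mul_le_mul h2 _ (by positivity) (by linarith)
      exact mul_le_mul_of_nonneg_left h1 hC3.le
    have h4 : 0 ≤ (2 * C + 3) * C3 := by positivity
    calc (num F Z : ℝ) ≤ (H0 + 3) * (C3 * (H0 + 1)) * 1 := by linarith
      _ ≤ _ := mul_le_mul (by linarith) hPe1 (by norm_num) (by positivity)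
  have hP : 0 < H ^ (DE k σ + ε / 2) := Real.rpow_pos_of_pos hHpos _
  have hP1 : 1 ≤ H ^ (DE k σ + ε / 2) := Real.one_le_rpow hH1 (by linarith)
  have hcardL : (L.card : ℝ) ≤ (2 * C + 3) * H ^ (DE k σ + ε / 2) := by
    rcases lt_or_ge σ (1 / 2 + ε / 16) with hσs | hσb
    · have hk1 : k = 1 := by
        by_contra hne
        have h2 : 2 ≤ k := by omega
        have h3 : (1 / 2 : ℝ) ^ k ≤ (1 / 2) ^ 2 := pow_le_pow_of_le_one (by norm_num) (by norm_num) h2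
        norm_num at h3 hσ
        linarith
      have h4 : DE k σ = 2 * (1 - σ) := by
        rw [hk1]
        unfold DE
        push_cast
        norm_num
      have h5 : H ≤ H ^ (DE k σ + ε / 2) := by
        calc H = H ^ (1 : ℝ) := (Real.rpow_one _).symm
          _ ≤ _ := by
            apply Real.rpow_le_rpow_of_exponent_le hH1
            rw [h4]
            linarith
      have h6 : (L.card : ℝ) ≤ 3 * H := by linarith
      nlinarith
    · -- the large values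
      have hz : ∀ m ∈ L, ∃ z : ℂ, σ - δ ≤ z.re ∧ z.re ≤ 4 ∧ |z.im - m| ≤ 3 ∧
          H ^ (η * a0) ≤ ‖PSc (cf a) (H ^ a0) z‖ := by
        intro m hm
        obtain ⟨m1, m2, ρ, hρ, h1, h2⟩ := hLm m hm
        have hXa : X0 ≤ H ^ a0 := by
          have h3 : (X0 ^ (1 / a0)) ^ a0 ≤ H ^ a0 := Real.rpow_le_rpow (by positivity) (by rw [← hH0]; exact hHH) ha0.le
          rwa [← Real.rpow_mul (by linarith), one_div_mul_cancel ha0.ne', Real.rpow_one] at h3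
        have hTB : (Real.log (Q * T)) ^ B0 ≤ H ^ a0 := by
          have h3 : ((Real.log (Q * T)) ^ B) ^ a0 ≤ H ^ a0 := Real.rpow_le_rpow (by positivity) hTH ha0.le
          refine le_trans ?_ h3
          rw [← Real.rpow_mul (by linarith)]
          apply Real.rpow_le_rpow_of_exponent_le hlogT
          rwa [div_le_iff₀ ha0] at hBa
        have h5 := hρ.2.1
        obtain ⟨z, z1, z2, z3, z4⟩ := hloc Q (H ^ a0) T F a g ρ hQ hF hXa hT hTB hρ.1 (by linarith) hρ.2.2.1.le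
          (hρ.2.2.2.1.trans (by linarith)) (by
            have e1 : (num F (near F e ρ) : ℝ) ≤ num F (near F ε1 ρ) := by
              exact_mod_cast hF.num_near_mono hA heε (by linarith [hρ.2.2.1])
            have e2 := hρ.2.2.2.2
            rw [Real.log_rpow hHpos]
            calc (num F (near F e ρ) : ℝ) ≤ num F (near F ε1 ρ) := e1
              _ < κ * a0 * Real.log H := e2
              _ = κ * (a0 * Real.log H) := by ring)
        refine ⟨z, by linarith, z2, ?_, ?_⟩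
        · have z3' := abs_le.1 z3
          rw [abs_le]
          constructor <;> linarith
        · rwa [← Real.rpow_mul hHpos.le, mul_comm a0 η] at z4
      set L1 : Finset ℤ := L.filter (fun m => (m : ℝ) ≤ (T - 1) + H) with hL1
      set L2 : Finset ℤ := L.filter (fun m => ¬ (m : ℝ) ≤ (T - 1) + H) with hL2
      have h1 := hbad (cf a) g H (T - 1) σ L1 hF.cc hH2 hσ (by linarith) hσ1 (by
        intro m hm
        obtain ⟨g1, g2⟩ := Finset.mem_filter.1 hm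
        exact ⟨(hLm m g1).1, g2, hz m g1⟩)
      have h2 := hbad (cf a) g H (T - 1 + H) σ L2 hF.cc hH2 hσ (by linarith) hσ1 (by
        intro m hm
        obtain ⟨g1, g2⟩ := Finset.mem_filter.1 hm
        push Not at g2
        have g3 := (hLm m g1).2.1
        exact ⟨g2.le, by linarith, hz m g1⟩)
      have h3 : L.card = L1.card + L2.card := (Finset.card_filter_add_card_filter_not (s := L) _).symm
      rw [h3]
      push_cast
      linarith
  -- logarithms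
  have hlogH : Real.log (Q * T) ≤ H ^ (ε / 4) := by
    have h1 : (Real.log (Q * T)) ^ (4 / ε) ≤ H := (Real.rpow_le_rpow_of_exponent_le hlogT hBε).trans hTH
    have h2 : ((Real.log (Q * T)) ^ (4 / ε)) ^ (ε / 4) ≤ H ^ (ε / 4) :=
      Real.rpow_le_rpow (by positivity) h1 (by positivity)
    rw [← Real.rpow_mul (by linarith)] at h2
    have e1 : 4 / ε * (ε / 4) = 1 := by field_simp
    rwa [e1, Real.rpow_one] at h2
  have hHe4 : 0 < H ^ (ε / 4) := Real.rpow_pos_of_pos hHpos _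
  have hq1 : (Mf.card : ℝ) * (C3 * Real.log (Q * T)) ≤ (2 * C + 3) * C3 * H ^ (DE k σ + ε) := by
    have e1 : H ^ (DE k σ + ε / 2) * H ^ (ε / 4) ≤ H ^ (DE k σ + ε) := by
      rw [← Real.rpow_add hHpos]
      apply Real.rpow_le_rpow_of_exponent_le hH1
      linarith
    have e2 : (Mf.card : ℝ) = L.card := by rw [hLcard]
    rw [e2]
    calc (L.card : ℝ) * (C3 * Real.log (Q * T)) ≤ ((2 * C + 3) * H ^ (DE k σ + ε / 2)) * (C3 * H ^ (ε / 4)) := by
          apply mul_le_mul hcardL _ _ (by positivity)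
          · exact mul_le_mul_of_nonneg_left hlogH hC3.le
          · apply mul_nonneg hC3.le
            linarith
      _ = (2 * C + 3) * C3 * (H ^ (DE k σ + ε / 2) * H ^ (ε / 4)) := by ring
      _ ≤ _ := mul_le_mul_of_nonneg_left e1 (by positivity)
  have hc4 : 0 ≤ (H0 + 3) * (C3 * (H0 + 1)) * H ^ (DE k σ + ε) := by positivity
  calc (num F Z : ℝ) ≤ Mf.card * (C3 * Real.log (Q * T)) := hcnt
    _ ≤ (2 * C + 3) * C3 * H ^ (DE k σ + ε) + (H0 + 3) * (C3 * (H0 + 1)) * H ^ (DE k σ + ε) := by linarith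
    _ = _ := by ring

/-- finitely many `k` at once -/
theorem fin_K (K : ℕ) (ε ε1 D A : ℝ) (hε : 0 < ε) (hεone : ε ≤ 1) (hε1 : 0 < ε1) (hD : 1 ≤ D) (hA : 1 ≤ A) :
    ∃ c B C : ℝ, 0 < c ∧ 1 ≤ B ∧ 0 < C ∧ ∀ (Q : ℝ) (F : ℂ → ℂ) (a : ℕ → ℂ) (g : ℕ → ℝ), 1 ≤ Q → LR D A Q F a g →
      ∀ k : ℕ, 1 ≤ k → k ≤ K → ∀ σ T H : ℝ, 1 - (1 / 2) ^ k ≤ σ → σ ≤ 1 → 3 ≤ T → 2 ≤ H →
      (Real.log (Q * T)) ^ B ≤ H → H ≤ T → (num F (sparse F c ε1 σ T H) : ℝ) ≤ C * H ^ (DE k σ + ε) := by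
  induction K with
  | zero => exact ⟨1, 1, 1, one_pos, le_rfl, one_pos, fun Q F a g _ _ k h1 h2 => by omega⟩
  | succ K ih =>
    obtain ⟨c, B, C, hc, hB, hC, h⟩ := ih
    obtain ⟨c', B', C', hc', hB', hC', h'⟩ := fin_k (K + 1) ε ε1 D A (by omega) hε hεone hε1 hD hA
    refine ⟨min c c', max B B', C + C', lt_min hc hc', hB.trans (le_max_left _ _), by positivity, ?_⟩
    intro Q F a g hQ hF k hk hkK σ T H hσ hσ1 hT hH hTH hHT
    have hQT : 3 ≤ Q * T := by nlinarith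
    have hlogT : 1 ≤ Real.log (Q * T) := by
      rw [Real.le_log_iff_exp_le (by linarith)]
      have := Real.exp_one_lt_d9
      linarith
    have hTB : ∀ B'' : ℝ, B'' ≤ max B B' → (Real.log (Q * T)) ^ B'' ≤ H := fun B'' hB'' =>
      (Real.rpow_le_rpow_of_exponent_le hlogT hB'').trans hTH
    have hmono : ∀ c'' : ℝ, min c c' ≤ c'' →
        (num F (sparse F (min c c') ε1 σ T H) : ℝ) ≤ num F (sparse F c'' ε1 σ T H) := by
      intro c'' hcc
      exact_mod_cast num_mono (hF.sparse_finite hA (by linarith)) (sparse_mono (by linarith) hcc le_rfl)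
    have hP : 0 < H ^ (DE k σ + ε) := Real.rpow_pos_of_pos (by linarith) _
    rcases Nat.lt_or_ge k (K + 1) with h1 | h1
    · refine (hmono c (min_le_left _ _)).trans ((h Q F a g hQ hF k hk (by omega) σ T H hσ hσ1 hT hH
        (hTB B (le_max_left _ _)) hHT).trans ?_)
      exact mul_le_mul_of_nonneg_right (by linarith) hP.le
    · have h2 : k = K + 1 := le_antisymm hkK h1
      subst h2
      refine (hmono c' (min_le_right _ _)).trans ((h' Q F a g hQ hF σ T H hσ hσ1 hT hH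
        (hTB B' (le_max_right _ _)) hHT).trans ?_)
      exact mul_le_mul_of_nonneg_right (by linarith) hP.le

/-- the final theorem for the class -/
theorem final (ε D A : ℝ) (hε : 0 < ε) (hD : 1 ≤ D) (hA : 1 ≤ A) : ∃ c B C : ℝ, 0 < c ∧ 0 < B ∧ 0 < C ∧
    ∀ (Q : ℝ) (F : ℂ → ℂ) (a : ℕ → ℂ) (g : ℕ → ℝ), 1 ≤ Q → LR D A Q F a g →
    ∀ k : ℕ, 1 ≤ k → ∀ σ T H : ℝ, 1 - (1 / 2) ^ k ≤ σ → σ ≤ 1 → 3 ≤ T → (Real.log (Q * T)) ^ B ≤ H → H ≤ T →
      (num F (sparse F c ε σ T H) : ℝ) ≤ C * H ^ (DE k σ + ε) := by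
  obtain ⟨ε', hε'⟩ : ∃ ε' : ℝ, ε' = min ε 1 := ⟨_, rfl⟩
  have hε'0 : 0 < ε' := by rw [hε']; exact lt_min hε one_pos
  have hε'1 : ε' ≤ 1 := by rw [hε']; exact min_le_right _ _
  have hε'ε : ε' ≤ ε := by rw [hε']; exact min_le_left _ _
  obtain ⟨k1, hk1⟩ : ∃ k1 : ℕ, (1 / 2 : ℝ) ^ k1 < ε' / 4 := exists_pow_lt_of_lt_one (by positivity) (by norm_num)
  obtain ⟨k2, hk2⟩ : ∃ k2 : ℕ, k2 = k1 + 2 := ⟨_, rfl⟩
  have hk22 : 1 ≤ k2 := by omega
  have hpow : (1 / 2 : ℝ) ^ k2 < ε' / 4 :=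
    (pow_le_pow_of_le_one (by norm_num) (by norm_num) (by omega)).trans_lt hk1
  obtain ⟨c, B, C, hc, hB, hC, h⟩ := fin_K k2 (ε' / 2) ε D A (by positivity) (by linarith) hε hD hA
  refine ⟨c, max B 9, C, hc, by positivity, hC, ?_⟩
  intro Q F a g hQ hF k hk σ T H hσ hσ1 hT hTH hHT
  have hQT : 3 ≤ Q * T := by nlinarith
  have hlogT : (109 / 100 : ℝ) ≤ Real.log (Q * T) := by
    rw [Real.le_log_iff_exp_le (by linarith)]
    have h1 := Real.exp_one_lt_d9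
    have h2 : Real.exp (109 / 100) = Real.exp 1 * Real.exp (9 / 100) := by
      rw [← Real.exp_add]; norm_num
    have h3 : Real.exp (9 / 100) ≤ 1 / (1 - 9 / 100) := by
      have h4 := Real.add_one_le_exp (-(9 / 100 : ℝ))
      rw [Real.exp_neg] at h4
      rw [le_div_iff₀ (by norm_num)]
      have h5 := Real.exp_pos (9 / 100)
      have h6 := mul_le_mul_of_nonneg_left h4 h5.le
      rw [mul_inv_cancel₀ h5.ne'] at h6
      linarith
    rw [h2]
    have h5 := Real.exp_pos (9 / 100)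
    nlinarith
  have hH2 : 2 ≤ H := by
    refine le_trans ?_ hTH
    calc (2 : ℝ) ≤ (109 / 100) ^ 9 := by norm_num
      _ ≤ (Real.log (Q * T)) ^ 9 := pow_le_pow_left₀ (by norm_num) hlogT 9
      _ = (Real.log (Q * T)) ^ (9 : ℝ) := by
        rw [← Real.rpow_natCast]
        norm_num
      _ ≤ _ := Real.rpow_le_rpow_of_exponent_le (by linarith) (le_max_right _ _)
  have hTB : (Real.log (Q * T)) ^ B ≤ H :=
    (Real.rpow_le_rpow_of_exponent_le (by linarith) (le_max_left _ _)).trans hTH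
  by_cases hkk : k ≤ k2
  · refine (h Q F a g hQ hF k hk hkk σ T H hσ hσ1 hT hH2 hTB hHT).trans ?_
    apply mul_le_mul_of_nonneg_left _ hC.le
    exact Real.rpow_le_rpow_of_exponent_le (by linarith) (by linarith)
  · push Not at hkk
    obtain ⟨σ', hσ'⟩ : ∃ σ' : ℝ, σ' = 1 - (1 / 2) ^ k2 := ⟨_, rfl⟩
    have h1 : (1 / 2 : ℝ) ^ k ≤ (1 / 2) ^ k2 :=
      pow_le_pow_of_le_one (by norm_num) (by norm_num) hkk.le
    have hp0 : (0 : ℝ) < (1 / 2) ^ k2 := by positivity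
    have h2 : σ' ≤ σ := by rw [hσ']; linarith
    have h3 : (num F (sparse F c ε σ T H) : ℝ) ≤ num F (sparse F c ε σ' T H) := by
      exact_mod_cast num_mono (hF.sparse_finite hA (by linarith)) (sparse_mono (by linarith) le_rfl h2)
    have h4 := h Q F a g hQ hF k2 hk22 le_rfl σ' T H (by rw [hσ']) (by rw [hσ']; linarith) hT hH2 hTB hHT
    have hM0 : (0 : ℝ) < 2 ^ k2 := by positivity
    have hx : 2 - 2 * σ' = 2 / 2 ^ k2 := by
      rw [hσ', div_pow, one_pow]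
      ring
    obtain ⟨-, -, -, -, g3, -, -⟩ := exponents hk22 one_pos le_rfl (show (0 : ℝ) < 1 / 100 by norm_num)
      le_rfl (show 0 ≤ 2 - 2 * σ' by rw [hx]; positivity) hx.le rfl
    have hDE' : DE k2 σ' ≤ ε' / 2 := by
      unfold DE
      rw [show 2 * (1 - σ') = 2 - 2 * σ' by ring, div_le_iff₀ (by linarith)]
      have h5 : 2 - 2 * σ' ≤ ε' / 2 := by rw [hσ']; linarith
      nlinarith
    have hDE0 := DE_nonneg hk hσ hσ1
    refine h3.trans (h4.trans ?_)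
    apply mul_le_mul_of_nonneg_left _ hC.le
    exact Real.rpow_le_rpow_of_exponent_le (by linarith) (by linarith)

end Pool.Agent.Zk1.BIR
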