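import Pool.Agent.Zk1.BIR.Def
import Pool.Agent.Zk20.GT.PackC
import Pool.Agent.W605.LVDirU
import Pool.Agent.Y771.NF.Inst

/-!
# Newforms of any weight, level and nebentypus and their twists belong to the class `LR`
-/

set_option autoImplicit false
set_option maxHeartbeats 4000000

open Complex Filter Topology Set MeasureTheory UpperHalfPlane MatrixGroups CongruenceSubgroup

namespace Pool.Agent.Zk1.BIR

open W388 H385
open Pool.Agent.W605.LVDirU
open Pool.Agent.W482.TW (del pow_rec cS_one cS_pow)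

/-- the coefficients at the powers of a prime -/
theorem cS_pow_le {N : ℕ} {lam : ℕ → ℝ} (H : HeckeSeq N lam)
    (hs : ∀ σ : ℝ, 0 < σ → Summable (fun n : ℕ => lam n ^ 2 * (n : ℝ) ^ (-(1 + σ))))
    {p : ℕ} (hp : p.Prime) (j : ℕ) :
    |cS N lam (p ^ (j + 2))| ≤ 2 * (|lam p| + 1) ^ 2 * Real.sqrt p ^ j := by
  have hp0 : (0 : ℝ) ≤ p := Nat.cast_nonneg p
  have hp1 : (1 : ℝ) ≤ p := by exact_mod_cast hp.one_lt.le
  have hs1 : 1 ≤ Real.sqrt p := Real.one_le_sqrt.2 hp1
  have hsj : 1 ≤ Real.sqrt p ^ j := one_le_pow₀ hs1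
  have habs := abs_nonneg (lam p)
  by_cases hN : p ∣ N
  · have hdel : del N p = 0 := if_pos hN
    have hpw : ∀ j, lam (p ^ j) = lam p ^ j := by
      intro j
      induction j using Nat.strong_induction_on with
      | _ j ih =>
        match j with
        | 0 => rw [pow_zero, pow_zero, H.one]
        | 1 => rw [pow_one, pow_one]
        | j + 2 =>
          rw [pow_rec H hp j, hdel, zero_mul, sub_zero, ih (j + 1) (by omega)]
          ring
    have h1 : lam p ^ 2 ≤ p := by
      refine growth hs hp 1 _ one_pos fun j => ?_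
      rw [hpw j, one_mul]
      exact le_of_eq (by ring)
    have h2 : |lam p| ≤ Real.sqrt p := Real.abs_le_sqrt h1
    have h3 : cS N lam (p ^ (j + 2)) = lam p ^ (j + 2) := by
      rw [cS_pow hp j, hdel, zero_mul, sub_zero, hpw]
    rw [h3, abs_pow, pow_add]
    have h4 := pow_le_pow_left₀ habs h2 j
    calc |lam p| ^ j * |lam p| ^ 2 ≤ Real.sqrt p ^ j * (2 * (|lam p| + 1) ^ 2) := by
          apply mul_le_mul h4 _ (by positivity) (by positivity)
          nlinarith
      _ = _ := by ring
  · obtain ⟨α, h1, hα⟩ := exists_root (lam p)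
    have h0 : α ≠ 0 := norm_pos_iff.1 (by linarith)
    have hle := alpha_le H hs hp hN α h1 hα
    have h2 : ‖α‖ ≤ Real.sqrt p := Real.le_sqrt_of_sq_le hle
    have hdel : del N p = 1 := if_neg hN
    have h3 : (cS N lam (p ^ (j + 2)) : ℂ) = α ^ (j + 2) + (α⁻¹) ^ (j + 2) := by
      rw [cS_pow hp j, hdel, one_mul]
      push_cast
      exact V_formula H hp hN α h0 hα j
    have h4 := congrArg norm h3
    rw [Complex.norm_real, Real.norm_eq_abs] at h4
    rw [h4]
    have hinv : ‖α⁻¹‖ ≤ 1 := by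
      rw [norm_inv]
      exact inv_le_one_of_one_le₀ h1
    have h5 := norm_add_le (α ^ (j + 2)) ((α⁻¹) ^ (j + 2))
    rw [norm_pow, norm_pow] at h5
    have h6 : ‖α⁻¹‖ ^ (j + 2) ≤ 1 := pow_le_one₀ (norm_nonneg _) hinv
    have h8 := pow_le_pow_left₀ (norm_nonneg _) h2 j
    have h9 : ‖α‖ ≤ |lam p| + 1 := by
      have h10 : α = (lam p : ℂ) - α⁻¹ := by rw [← hα]; ring
      have h11 : ‖α‖ ≤ ‖((lam p : ℝ) : ℂ)‖ + ‖α⁻¹‖ := by
        calc ‖α‖ = ‖(lam p : ℂ) - α⁻¹‖ := by rw [← h10]
          _ ≤ _ := norm_sub_le _ _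
      rw [Complex.norm_real, Real.norm_eq_abs] at h11
      linarith
    have h12 : ‖α‖ ^ 2 ≤ (|lam p| + 1) ^ 2 := pow_le_pow_left₀ (norm_nonneg _) h9 2
    have h13 : 1 ≤ (|lam p| + 1) ^ 2 := one_le_pow₀ (by linarith)
    calc ‖α ^ (j + 2) + (α⁻¹) ^ (j + 2)‖ ≤ ‖α‖ ^ (j + 2) + 1 := by linarith
      _ = ‖α‖ ^ j * ‖α‖ ^ 2 + 1 := by rw [pow_add]
      _ ≤ Real.sqrt p ^ j * (|lam p| + 1) ^ 2 + Real.sqrt p ^ j * (|lam p| + 1) ^ 2 := by
          apply add_le_add
          · exact mul_le_mul h8 h12 (by positivity) (by positivity)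
          · nlinarith
      _ = _ := by ring

/-- `p / log p` is at most `2 x / log x` for `p ≤ x` -/
lemma log_div {p x : ℝ} (hp : 2 ≤ p) (hx : p ≤ x) : Real.log x / x ≤ 2 * (Real.log p / p) := by
  rcases le_or_gt p (Real.exp 1) with h | h
  · have h1 : Real.log x / x ≤ 1 / 2 := by
      have h2 := Real.log_le_sub_one_of_pos (show 0 < x / Real.exp 1 by positivity)
      rw [Real.log_div (by linarith) (Real.exp_pos 1).ne', Real.log_exp] at h2
      have h3 : Real.log x ≤ x / Real.exp 1 := by linarith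
      rw [div_le_div_iff₀ (by linarith) (by norm_num), one_mul]
      have h4 : x / Real.exp 1 ≤ x / 2 := by
        apply div_le_div_of_nonneg_left (by linarith) (by norm_num)
        have := Real.exp_one_gt_d9
        linarith
      linarith
    have h5 : (1 / 4 : ℝ) ≤ Real.log p / p := by
      rw [div_le_div_iff₀ (by norm_num) (by linarith)]
      have h6 : Real.log 2 ≤ Real.log p := Real.log_le_log (by norm_num) hp
      have h7 := Real.log_two_gt_d9
      have h8 := Real.exp_one_lt_d9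
      linarith
    linarith
  · have h1 : Real.log x / x ≤ Real.log p / p := by
      have := Real.log_div_self_antitoneOn (show Real.exp 1 ≤ p by exact h.le)
        (show Real.exp 1 ≤ x by exact h.le.trans hx) hx
      exact this
    have h2 : 0 ≤ Real.log p / p := div_nonneg (Real.log_nonneg (by linarith)) (by linarith)
    linarith

/-- the squares at the primes -/
theorem sq_primes {lam : ℕ → ℝ} {C : ℝ}
    (h : ∀ x : ℝ, 2 ≤ x → ∑ p ∈ (Finset.Icc 1 ⌊x⌋₊).filter Nat.Prime, ‖(lam p : ℂ)‖ ^ 2 * Real.log p / p ≤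
      4 * Real.log x + C) : ∃ K : ℝ, 0 ≤ K ∧ ∀ N : ℕ, ∑ p ∈ (Finset.range (N + 1)).filter Nat.Prime, lam p ^ 2 ≤ K * N := by
  refine ⟨8 + 4 * |C|, by positivity, ?_⟩
  intro N
  rcases Nat.lt_or_ge N 2 with hN | hN
  · have h1 : (Finset.range (N + 1)).filter Nat.Prime = ∅ := by
      rw [Finset.filter_eq_empty_iff]
      intro p hp hpp
      have h2 := hpp.two_le
      rw [Finset.mem_range] at hp
      omega
    rw [h1, Finset.sum_empty]
    positivity
  · have hN2 : (2 : ℝ) ≤ N := by exact_mod_cast hN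
    have hN0 : (0 : ℝ) < N := by linarith
    have hlog : 0 < Real.log N := Real.log_pos (by linarith)
    have h1 := h N hN2
    rw [Nat.floor_natCast] at h1
    have h2 : ∀ p ∈ (Finset.range (N + 1)).filter Nat.Prime, lam p ^ 2 ≤
        2 * (N / Real.log N) * (‖(lam p : ℂ)‖ ^ 2 * Real.log p / p) := by
      intro p hp
      obtain ⟨h3, h4⟩ := Finset.mem_filter.1 hp
      rw [Finset.mem_range] at h3
      have h5 : (2 : ℝ) ≤ p := by exact_mod_cast h4.two_le
      have h6 : (p : ℝ) ≤ N := by exact_mod_cast Nat.lt_succ_iff.1 h3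
      have h7 := log_div h5 h6
      rw [Complex.norm_real, Real.norm_eq_abs, sq_abs]
      have h8 : 1 ≤ 2 * (N / Real.log N) * (Real.log p / p) := by
        have h9 : 1 = (N / Real.log N) * (Real.log N / N) := by
          field_simp
        rw [h9]
        calc (N / Real.log N) * (Real.log N / N) ≤ (N / Real.log N) * (2 * (Real.log p / p)) :=
              mul_le_mul_of_nonneg_left h7 (by positivity)
          _ = _ := by ring
      calc lam p ^ 2 = lam p ^ 2 * 1 := (mul_one _).symm
        _ ≤ lam p ^ 2 * (2 * (N / Real.log N) * (Real.log p / p)) :=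
            mul_le_mul_of_nonneg_left h8 (by positivity)
        _ = _ := by ring
    refine (Finset.sum_le_sum h2).trans ?_
    rw [← Finset.mul_sum]
    have h3 : ∑ p ∈ (Finset.range (N + 1)).filter Nat.Prime, ‖(lam p : ℂ)‖ ^ 2 * Real.log p / p ≤
        ∑ p ∈ (Finset.Icc 1 N).filter Nat.Prime, ‖(lam p : ℂ)‖ ^ 2 * Real.log p / p := by
      apply le_of_eq
      apply Finset.sum_congr _ fun _ _ => rfl
      ext p
      simp only [Finset.mem_filter, Finset.mem_range, Finset.mem_Icc]
      constructor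
      · rintro ⟨a1, a2⟩
        exact ⟨⟨a2.one_lt.le, by omega⟩, a2⟩
      · rintro ⟨⟨a1, a2⟩, a3⟩
        exact ⟨by omega, a3⟩
    have h4 : ∑ p ∈ (Finset.range (N + 1)).filter Nat.Prime, ‖(lam p : ℂ)‖ ^ 2 * Real.log p / p ≤
        4 * Real.log N + |C| := h3.trans (h1.trans (by linarith [le_abs_self C]))
    have h5 : 1 / 2 ≤ Real.log N := by
      have h6 : Real.log 2 ≤ Real.log N := Real.log_le_log (by norm_num) hN2
      have h7 := Real.log_two_gt_d9
      linarith
    calc 2 * (N / Real.log N) * ∑ p ∈ (Finset.range (N + 1)).filter Nat.Prime, ‖(lam p : ℂ)‖ ^ 2 * Real.log p / p ≤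
          2 * (N / Real.log N) * (4 * Real.log N + |C|) := mul_le_mul_of_nonneg_left h4 (by positivity)
      _ = 8 * N + 2 * |C| * (N / Real.log N) := by
          field_simp
          ring
      _ ≤ 8 * N + 2 * |C| * (2 * N) := by
          have h8 : N / Real.log N ≤ 2 * N := by
            rw [div_le_iff₀ hlog]
            nlinarith
          have := abs_nonneg C
          gcongr
      _ = (8 + 4 * |C|) * N := by ring

end Pool.Agent.Zk1.BIR
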