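import Pool.Agent.Zk1.BIR.Pol
import Pool.Agent.Zk20.GT.PackC
import Pool.Agent.W605.LVDirU
import Pool.Agent.Y771.NF.Inst

/-!
# Newforms of any weight, level and nebentypus and their twists
-/

set_option autoImplicit false
set_option maxHeartbeats 4000000

open Complex Filter Topology Set MeasureTheory UpperHalfPlane MatrixGroups CongruenceSubgroup

namespace Pool.Agent.Zk1.BIR

open W388
open Pool.Agent.W605.LVDirU (growth exists_root alpha_le)
open Pool.Agent.W482.TW (del pow_rec)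
open Pool.Agent.Zk3.GL (re_sh im_sh)

/-- `p / log p` is at most `2 x / log x` for `p ≤ x` -/
lemma log_div {p x : ℝ} (hp : 2 ≤ p) (hx : p ≤ x) : Real.log x / x ≤ 2 * (Real.log p / p) := by
  rcases le_or_gt p (Real.exp 1) with h | h
  · have h1 : Real.log x / x ≤ 1 / 2 := by
      have h2 := Real.log_le_sub_one_of_pos (div_pos (show 0 < x by linarith) (Real.exp_pos 1))
      rw [Real.log_div (by linarith) (Real.exp_pos 1).ne', Real.log_exp] at h2
      have h3 : Real.log x ≤ x / Real.exp 1 := by linarith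
      rw [div_le_div_iff₀ (by linarith) (by norm_num), one_mul]
      have h4 : x / Real.exp 1 ≤ x / 2 := by
        apply div_le_div_of_nonneg_left (by linarith) (by norm_num)
        have := Real.exp_one_gt_d9
        linarith
      linarith
    have h5 : (1 / 4 : ℝ) ≤ Real.log p / p := by
      rw [div_le_div_iff₀ (by norm_num) (by linarith)]
      have h6 : Real.log 2 ≤ Real.log p := Real.log_le_log (by norm_num) hp
      have h7 := Real.log_two_gt_d9
      have h8 := Real.exp_one_lt_d9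
      linarith
    linarith
  · have h1 : Real.log x / x ≤ Real.log p / p := by
      have := Real.log_div_self_antitoneOn (show Real.exp 1 ≤ p by exact h.le)
        (show Real.exp 1 ≤ x by exact h.le.trans hx) hx
      exact this
    have h2 : 0 ≤ Real.log p / p := div_nonneg (Real.log_nonneg (by linarith)) (by linarith)
    linarith

/-- the squares at the primes -/
theorem sq_primes {lam : ℕ → ℝ} {C : ℝ}
    (h : ∀ x : ℝ, 2 ≤ x → ∑ p ∈ (Finset.Icc 1 ⌊x⌋₊).filter Nat.Prime, ‖(lam p : ℂ)‖ ^ 2 * Real.log p / p ≤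
      4 * Real.log x + C) : ∃ K : ℝ, 0 ≤ K ∧ ∀ N : ℕ, ∑ p ∈ (Finset.range (N + 1)).filter Nat.Prime, lam p ^ 2 ≤ K * N := by
  refine ⟨8 + 4 * |C|, by positivity, ?_⟩
  intro N
  rcases Nat.lt_or_ge N 2 with hN | hN
  · have h1 : (Finset.range (N + 1)).filter Nat.Prime = ∅ := by
      rw [Finset.filter_eq_empty_iff]
      intro p hp hpp
      have h2 := hpp.two_le
      rw [Finset.mem_range] at hp
      omega
    rw [h1, Finset.sum_empty]
    positivity
  · have hN2 : (2 : ℝ) ≤ N := by exact_mod_cast hN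
    have hN0 : (0 : ℝ) < N := by linarith
    have hlog : 0 < Real.log N := Real.log_pos (by linarith)
    have h1 := h N hN2
    rw [Nat.floor_natCast] at h1
    have h2 : ∀ p ∈ (Finset.range (N + 1)).filter Nat.Prime, lam p ^ 2 ≤
        2 * (N / Real.log N) * (‖(lam p : ℂ)‖ ^ 2 * Real.log p / p) := by
      intro p hp
      obtain ⟨h3, h4⟩ := Finset.mem_filter.1 hp
      rw [Finset.mem_range] at h3
      have h5 : (2 : ℝ) ≤ p := by exact_mod_cast h4.two_le
      have h6 : (p : ℝ) ≤ N := by exact_mod_cast Nat.lt_succ_iff.1 h3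
      have h7 := log_div h5 h6
      rw [Complex.norm_real, Real.norm_eq_abs, sq_abs]
      have h8 : 1 ≤ 2 * (N / Real.log N) * (Real.log p / p) := by
        have h9 : 1 = (N / Real.log N) * (Real.log N / N) := by
          field_simp
        rw [h9]
        calc (N / Real.log N) * (Real.log N / N) ≤ (N / Real.log N) * (2 * (Real.log p / p)) :=
              mul_le_mul_of_nonneg_left h7 (by positivity)
          _ = _ := by ring
      calc lam p ^ 2 = lam p ^ 2 * 1 := (mul_one _).symm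
        _ ≤ lam p ^ 2 * (2 * (N / Real.log N) * (Real.log p / p)) :=
            mul_le_mul_of_nonneg_left h8 (by positivity)
        _ = _ := by ring
    refine (Finset.sum_le_sum h2).trans ?_
    rw [← Finset.mul_sum]
    have h3 : ∑ p ∈ (Finset.range (N + 1)).filter Nat.Prime, ‖(lam p : ℂ)‖ ^ 2 * Real.log p / p ≤
        ∑ p ∈ (Finset.Icc 1 N).filter Nat.Prime, ‖(lam p : ℂ)‖ ^ 2 * Real.log p / p := by
      apply le_of_eq
      apply Finset.sum_congr _ fun _ _ => rfl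
      ext p
      simp only [Finset.mem_filter, Finset.mem_range, Finset.mem_Icc]
      constructor
      · rintro ⟨a1, a2⟩
        exact ⟨⟨a2.one_lt.le, by omega⟩, a2⟩
      · rintro ⟨⟨a1, a2⟩, a3⟩
        exact ⟨by omega, a3⟩
    have h4 : ∑ p ∈ (Finset.range (N + 1)).filter Nat.Prime, ‖(lam p : ℂ)‖ ^ 2 * Real.log p / p ≤
        4 * Real.log N + |C| := h3.trans (h1.trans (by linarith [le_abs_self C]))
    have h5 : 1 / 2 ≤ Real.log N := by
      have h6 : Real.log 2 ≤ Real.log N := Real.log_le_log (by norm_num) hN2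
      have h7 := Real.log_two_gt_d9
      linarith
    calc 2 * (N / Real.log N) * ∑ p ∈ (Finset.range (N + 1)).filter Nat.Prime, ‖(lam p : ℂ)‖ ^ 2 * Real.log p / p ≤
          2 * (N / Real.log N) * (4 * Real.log N + |C|) := mul_le_mul_of_nonneg_left h4 (by positivity)
      _ = 8 * N + 2 * |C| * (N / Real.log N) := by
          field_simp
          ring
      _ ≤ 8 * N + 2 * |C| * (2 * N) := by
          have h8 : N / Real.log N ≤ 2 * N := by
            rw [div_le_iff₀ hlog]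
            nlinarith
          have := abs_nonneg C
          gcongr
      _ = (8 + 4 * |C|) * N := by ring

/-- the roots of a Hecke polynomial -/
theorem root_bound {N : ℕ} {lam : ℕ → ℝ} (H : HeckeSeq N lam)
    (hs : ∀ σ : ℝ, 0 < σ → Summable (fun n : ℕ => lam n ^ 2 * (n : ℝ) ^ (-(1 + σ))))
    {p : ℕ} (hp : p.Prime) {u : ℂ} (hu : 1 - lam p * u + (if p ∣ N then 0 else 1) * u ^ 2 = 0) :
    (p : ℝ) ^ (-(1 / 2 : ℝ)) ≤ ‖u‖ ∧ 1 ≤ (|lam p| + 1) * ‖u‖ := by
  have hp0 : (0 : ℝ) < p := by exact_mod_cast hp.pos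
  have hp1 : (1 : ℝ) ≤ p := by exact_mod_cast hp.one_lt.le
  have habs := abs_nonneg (lam p)
  have hinv : (p : ℝ) ^ (-(1 / 2 : ℝ)) = (Real.sqrt p)⁻¹ := by
    rw [Real.rpow_neg hp0.le, Real.sqrt_eq_rpow]
  have hs0 : 0 < Real.sqrt p := Real.sqrt_pos.2 hp0
  by_cases hN : p ∣ N
  · rw [if_pos hN, zero_mul, add_zero, sub_eq_zero] at hu
    have hdel : del N p = 0 := if_pos hN
    have hpw : ∀ j, lam (p ^ j) = lam p ^ j := by
      intro j
      induction j using Nat.strong_induction_on with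
      | _ j ih =>
        match j with
        | 0 => rw [pow_zero, pow_zero, H.one]
        | 1 => rw [pow_one, pow_one]
        | j + 2 =>
          rw [pow_rec H hp j, hdel, zero_mul, sub_zero, ih (j + 1) (by omega)]
          ring
    have h1 : lam p ^ 2 ≤ p := by
      refine growth hs hp 1 _ one_pos fun j => ?_
      rw [hpw j, one_mul]
      exact le_of_eq (by ring)
    have h2 : |lam p| ≤ Real.sqrt p := Real.abs_le_sqrt h1
    have h3 : 1 = |lam p| * ‖u‖ := by
      have := congrArg norm hu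
      rw [norm_one, norm_mul, Complex.norm_real, Real.norm_eq_abs] at this
      exact this
    have h4 := norm_nonneg u
    constructor
    · rw [hinv, inv_le_iff_one_le_mul₀ hs0, mul_comm]
      calc (1 : ℝ) = |lam p| * ‖u‖ := h3
        _ ≤ Real.sqrt p * ‖u‖ := mul_le_mul_of_nonneg_right h2 h4
    · nlinarith
  · rw [if_neg hN, one_mul] at hu
    have hu0 : u ≠ 0 := by
      rintro rfl
      norm_num at hu
    have hu1 : 0 < ‖u‖ := norm_pos_iff.2 hu0
    have hsum : u⁻¹ + (u⁻¹)⁻¹ = (lam p : ℂ) := by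
      rw [inv_inv]
      field_simp
      linear_combination hu
    rcases le_or_gt 1 ‖u‖ with h | h
    · constructor
      · refine le_trans ?_ h
        exact Real.rpow_le_one_of_one_le_of_nonpos hp1 (by norm_num)
      · nlinarith
    · have h1 : 1 ≤ ‖u⁻¹‖ := by
        rw [norm_inv]
        exact (one_le_inv₀ hu1).2 h.le
      have h2 := alpha_le H hs hp hN u⁻¹ h1 hsum
      have h3 : ‖u⁻¹‖ ≤ Real.sqrt p := Real.le_sqrt_of_sq_le h2
      rw [norm_inv] at h3
      constructor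
      · rw [hinv]
        exact inv_le_of_inv_le₀ hu1 h3
      · have h4 : u⁻¹ = (lam p : ℂ) - u := by
          rw [← hsum, inv_inv]
          ring
        have h5 : ‖u⁻¹‖ ≤ |lam p| + 1 := by
          rw [h4]
          refine (norm_sub_le _ _).trans ?_
          rw [Complex.norm_real, Real.norm_eq_abs]
          linarith
        calc (1 : ℝ) = ‖u⁻¹‖ * ‖u‖ := by rw [norm_inv, inv_mul_cancel₀ hu1.ne']
          _ ≤ _ := mul_le_mul_of_nonneg_right h5 hu1.le

/-- **Newforms and their twists.** -/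
theorem newf_HR {N : ℕ} [NeZero N] {k : ℕ} (hk : 1 ≤ k) {ψ : DirichletCharacter ℂ N}
    {f : CuspForm (Gamma1 N : Subgroup (GL (Fin 2) ℝ)) (k : ℤ)} {η : ℂ} (hf : IsNewfC N k ψ f η) :
    ∃ M A : ℝ, 1 ≤ M ∧ 1 ≤ A ∧ ∀ i r : ℕ, k + 2 * r = i + 1 →
      ∀ (q : ℕ) (χ : DirichletCharacter ℂ q), 1 ≤ q → Nat.Coprime q N → χ.IsPrimitive →
        ∃ L : ℂ → ℂ, Differentiable ℂ L ∧ IsHR i 2 M (fun p =>
          1 - Polynomial.C (χ (p : ZMod q) * (qExpansion 1 f).coeff p * (p : ℂ) ^ r) * Polynomial.X +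
            Polynomial.C (χ (p : ZMod q) ^ 2 * ψ (p : ZMod N) * (p : ℂ) ^ i) * Polynomial.X ^ 2) A q L := by
  have hkz : (1 : ℤ) ≤ (k : ℤ) := by exact_mod_cast hk
  have hN : 0 < N := Nat.pos_of_ne_zero (NeZero.ne N)
  obtain ⟨A, c, F, hA, hGE, -, hFd⟩ := Pool.Agent.Zk20.GT.newfC_pack hkz hf
  obtain ⟨θ, lam, hθ, hθ1, hθ2, hH, hlam⟩ := reduce ψ (lamC f) (lamC_zero f) (lamC_one hf)
    (lamC_mul hf) (lamC_pow hf) (fun p hp hpN => lamC_conj hf p
      ((Nat.Prime.coprime_iff_not_dvd hp).mpr hpN))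
  have hR : RSLim lam := by
    have h1 := p_rsC N k hkz ψ f hf.neb hf.one
    have h2 : ∀ n : ℕ, ‖lamC f n‖ ^ 2 = lam n ^ 2 := by
      intro n
      rw [hlam n]
      rcases eq_or_ne n 0 with rfl | hn
      · rw [hθ.zero, hH.zero]; simp
      · rw [norm_mul, hθ1 n hn, one_mul, Complex.norm_real, Real.norm_eq_abs, sq_abs]
    unfold RSLim at h1 ⊢
    simp only [h2] at h1
    exact h1
  obtain ⟨C0, hC0⟩ := Pool.Agent.Y771.NF.rs_of_sel (p_sel N hN lam hH hR).1
  obtain ⟨K, hK, hKs⟩ := sq_primes hC0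
  refine ⟨2 * K + 2, A, by linarith, hA, ?_⟩
  intro i r hir q χ hq hqN hχ
  obtain ⟨hdiff, heul⟩ := hFd q χ hq hqN hχ
  have hG := hGE q χ hq hqN hχ
  have hcoef : ∀ p : ℕ, p.Prime → (qExpansion 1 f).coeff p * (p : ℂ) ^ r =
      lamC f p * (((p : ℝ) ^ ((i : ℝ) / 2) : ℝ) : ℂ) := by
    intro p hp
    have hp0 : (0 : ℝ) < p := by exact_mod_cast hp.pos
    have h1 : (((p : ℝ) ^ ((((k : ℤ) : ℝ) - 1) / 2) : ℝ) : ℂ) ≠ 0 := by
      have : (p : ℝ) ^ ((((k : ℤ) : ℝ) - 1) / 2) ≠ 0 := (Real.rpow_pos_of_pos hp0 _).ne'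
      exact_mod_cast this
    have h2 : (p : ℝ) ^ ((i : ℝ) / 2) = (p : ℝ) ^ ((((k : ℤ) : ℝ) - 1) / 2) * (p : ℝ) ^ r := by
      rw [← Real.rpow_natCast, ← Real.rpow_add hp0]
      congr 1
      have h3 : (k : ℝ) + 2 * r = i + 1 := by exact_mod_cast hir
      push_cast
      linarith
    unfold lamC
    rw [h2]
    push_cast at h1 ⊢
    field_simp
  have hroot : ∀ p : ℕ, p.Prime → ∀ z : ℂ,
      (1 - Polynomial.C (χ (p : ZMod q) * (qExpansion 1 f).coeff p * (p : ℂ) ^ r) * Polynomial.X +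
        Polynomial.C (χ (p : ZMod q) ^ 2 * ψ (p : ZMod N) * (p : ℂ) ^ i) * Polynomial.X ^ 2 : Polynomial ℂ).eval z = 0 →
      (p : ℝ) ^ (-(1 / 2 : ℝ)) ≤ (p : ℝ) ^ ((i : ℝ) / 2) * ‖z‖ ∧
        1 ≤ (|lam p| + 1) * ((p : ℝ) ^ ((i : ℝ) / 2) * ‖z‖) := by
    intro p hp z hz
    have hp0 : (0 : ℝ) < p := by exact_mod_cast hp.pos
    simp only [Polynomial.eval_add, Polynomial.eval_sub, Polynomial.eval_one, Polynomial.eval_mul,
      Polynomial.eval_C, Polynomial.eval_X, Polynomial.eval_pow] at hz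
    obtain ⟨u, hu⟩ : ∃ u : ℂ, u = χ (p : ZMod q) * θ p * (((p : ℝ) ^ ((i : ℝ) / 2) : ℝ) : ℂ) * z := ⟨_, rfl⟩
    have hpi : ((((p : ℝ) ^ ((i : ℝ) / 2) : ℝ) : ℂ)) ^ 2 = (p : ℂ) ^ i := by
      rw [← Complex.ofReal_pow, ← Real.rpow_natCast ((p : ℝ) ^ ((i : ℝ) / 2)), ← Real.rpow_mul hp0.le]
      have : (i : ℝ) / 2 * ((2 : ℕ) : ℝ) = i := by push_cast; ring
      rw [this, Real.rpow_natCast]
      push_cast
      rfl
    have hu1 : 1 - lam p * u + (if p ∣ N then 0 else 1) * u ^ 2 = 0 := by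
      refine Eq.trans ?_ hz
      have e1 : χ (p : ZMod q) * (qExpansion 1 f).coeff p * (p : ℂ) ^ r * z = lam p * u := by
        rw [mul_assoc (χ (p : ZMod q)), hcoef p hp, hlam p, hu]
        ring
      rw [e1]
      congr 1
      by_cases hpN : p ∣ N
      · have : ψ (p : ZMod N) = 0 := by
          apply MulChar.map_nonunit
          rw [ZMod.isUnit_iff_coprime]
          intro hc
          exact ((Nat.Prime.coprime_iff_not_dvd hp).mp hc) hpN
        rw [if_pos hpN, this]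
        ring
      · rw [if_neg hpN, ← hθ2 p hp.ne_zero ((Nat.Prime.coprime_iff_not_dvd hp).mpr hpN), ← hpi, hu]
        ring
    have h2 := root_bound hH hR.1 hp hu1
    have h3 : ‖u‖ ≤ (p : ℝ) ^ ((i : ℝ) / 2) * ‖z‖ := by
      rw [hu, norm_mul, norm_mul, norm_mul, hθ1 p hp.ne_zero, mul_one, Complex.norm_real,
        Real.norm_of_nonneg (by positivity)]
      have h4 := χ.norm_le_one (p : ZMod q)
      have h5 : 0 ≤ (p : ℝ) ^ ((i : ℝ) / 2) * ‖z‖ := by positivity
      calc ‖χ (p : ZMod q)‖ * (p : ℝ) ^ ((i : ℝ) / 2) * ‖z‖ = ‖χ (p : ZMod q)‖ * ((p : ℝ) ^ ((i : ℝ) / 2) * ‖z‖) := by ring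
        _ ≤ 1 * ((p : ℝ) ^ ((i : ℝ) / 2) * ‖z‖) := mul_le_mul_of_nonneg_right h4 h5
        _ = _ := one_mul _
    refine ⟨h2.1.trans h3, h2.2.trans ?_⟩
    exact mul_le_mul_of_nonneg_left h3 (by have := abs_nonneg (lam p); linarith)
  refine ⟨fun s => F q χ (s - (i : ℂ) / 2), ?_, ?_, ?_, ?_, ?_, ?_, ?_, ?_⟩
  · exact hdiff.comp (by fun_prop)
  · intro p hp
    simp
  · intro p hp
    compute_degree
  · intro p hp z hz
    have hp0 : (0 : ℝ) < p := by exact_mod_cast hp.pos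
    have h1 := (hroot p hp z hz).1
    have h2 : (p : ℝ) ^ (-(((i : ℝ) + 1) / 2)) = (p : ℝ) ^ (-((i : ℝ) / 2)) * (p : ℝ) ^ (-(1 / 2 : ℝ)) := by
      rw [← Real.rpow_add hp0]
      congr 1
      ring
    have h3 : (p : ℝ) ^ (-((i : ℝ) / 2)) * (p : ℝ) ^ ((i : ℝ) / 2) = 1 := by
      rw [← Real.rpow_add hp0, neg_add_cancel, Real.rpow_zero]
    rw [h2]
    calc (p : ℝ) ^ (-((i : ℝ) / 2)) * (p : ℝ) ^ (-(1 / 2 : ℝ)) ≤
          (p : ℝ) ^ (-((i : ℝ) / 2)) * ((p : ℝ) ^ ((i : ℝ) / 2) * ‖z‖) := mul_le_mul_of_nonneg_left h1 (by positivity)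
      _ = ‖z‖ := by rw [← mul_assoc, h3, one_mul]
  · refine ⟨fun p => |lam p| + 1, fun p => by have := abs_nonneg (lam p); linarith, ?_, ?_⟩
    · intro p hp z hz
      have hp0 : (0 : ℝ) < p := by exact_mod_cast hp.pos
      have h1 := (hroot p hp z hz).2
      have h3 : (p : ℝ) ^ (-((i : ℝ) / 2)) * (p : ℝ) ^ ((i : ℝ) / 2) = 1 := by
        rw [← Real.rpow_add hp0, neg_add_cancel, Real.rpow_zero]
      calc (p : ℝ) ^ (-((i : ℝ) / 2)) = (p : ℝ) ^ (-((i : ℝ) / 2)) * 1 := (mul_one _).symm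
        _ ≤ (p : ℝ) ^ (-((i : ℝ) / 2)) * ((|lam p| + 1) * ((p : ℝ) ^ ((i : ℝ) / 2) * ‖z‖)) :=
            mul_le_mul_of_nonneg_left h1 (by positivity)
        _ = ((p : ℝ) ^ (-((i : ℝ) / 2)) * (p : ℝ) ^ ((i : ℝ) / 2)) * ((|lam p| + 1) * ‖z‖) := by ring
        _ = _ := by rw [h3, one_mul]
    · intro M
      have h1 : ∀ p ∈ (Finset.range (M + 1)).filter Nat.Prime, (|lam p| + 1) ^ 2 ≤ 2 * lam p ^ 2 + 2 := by
        intro p _
        have h2 := sq_abs (lam p)
        nlinarith [sq_nonneg (|lam p| - 1)]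
      refine (Finset.sum_le_sum h1).trans ?_
      rw [Finset.sum_add_distrib, ← Finset.mul_sum, Finset.sum_const, nsmul_eq_mul]
      have h2 := hKs M
      have h3 : (((Finset.range (M + 1)).filter Nat.Prime).card : ℝ) ≤ M := by
        have h4 : (Finset.range (M + 1)).filter Nat.Prime ⊆ Finset.Icc 1 M := by
          intro p hp
          simp only [Finset.mem_filter, Finset.mem_range] at hp
          rw [Finset.mem_Icc]
          exact ⟨hp.2.one_lt.le, by omega⟩
        have h5 := Finset.card_le_card h4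
        rw [Nat.card_Icc, Nat.add_sub_cancel] at h5
        exact_mod_cast h5
      linarith
  · intro s hs
    have e1 : (s - (i : ℂ) / 2).re = s.re - (i : ℝ) / 2 := by
      have : ((i : ℂ) / 2) = (((i : ℝ) / 2 : ℝ) : ℂ) := by push_cast; rfl
      rw [this, Complex.sub_re, Complex.ofReal_re]
    have h1 := heul (s - (i : ℂ) / 2) (by rw [e1]; linarith)
    refine h1.congr_fun fun p => ?_
    have hp : (p : ℕ).Prime := p.2
    have hp0 : (0 : ℝ) < (p : ℕ) := by exact_mod_cast hp.pos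
    have hp0' : ((p : ℕ) : ℂ) ≠ 0 := by exact_mod_cast hp.ne_zero
    have e2 : ((p : ℕ) : ℂ) ^ (-(s - (i : ℂ) / 2)) =
        (((((p : ℕ) : ℝ) ^ ((i : ℝ) / 2) : ℝ)) : ℂ) * ((p : ℕ) : ℂ) ^ (-s) := by
      rw [Complex.ofReal_cpow hp0.le, Complex.ofReal_natCast, ← Complex.cpow_add _ _ hp0']
      congr 1
      push_cast
      ring
    have e3 : ((p : ℕ) : ℂ) ^ (-2 * (s - (i : ℂ) / 2)) = ((p : ℕ) : ℂ) ^ i * (((p : ℕ) : ℂ) ^ (-s)) ^ 2 := by
      rw [← Complex.cpow_natCast ((p : ℕ) : ℂ) i, ← Complex.cpow_nat_mul, ← Complex.cpow_add _ _ hp0']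
      congr 1
      push_cast
      ring
    simp only [Polynomial.eval_add, Polynomial.eval_sub, Polynomial.eval_one, Polynomial.eval_mul,
      Polynomial.eval_C, Polynomial.eval_X, Polynomial.eval_pow]
    rw [e2, e3, mul_assoc (χ ((p : ℕ) : ZMod q)) ((qExpansion 1 f).coeff p), hcoef p hp]
    congr 1
    ring
  · intro s hs
    exact (hdiff.comp (by fun_prop)).analyticAt s
  · intro s h1 h2 h3
    have e1 : (s - (i : ℂ) / 2).re = s.re - (i : ℝ) / 2 := by
      have : ((i : ℂ) / 2) = (((i : ℝ) / 2 : ℝ) : ℂ) := by push_cast; rfl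
      rw [this, Complex.sub_re, Complex.ofReal_re]
    have e2 : (s - (i : ℂ) / 2).im = s.im := by
      have : ((i : ℂ) / 2) = (((i : ℝ) / 2 : ℝ) : ℂ) := by push_cast; rfl
      rw [this, Complex.sub_im, Complex.ofReal_im, sub_zero]
    have h4 := hG.growth (s - (i : ℂ) / 2) (by rw [e1]; linarith) (by rw [e1]; linarith) (by rw [e2]; exact h3)
    rw [e2] at h4
    exact h4

end Pool.Agent.Zk1.BIR
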