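import Pool.Agent.Zk1.BIR.Sum
import Pool.Agent.Zk3.GL.HWm

set_option autoImplicit false

/-!
# L-functions of Hasse-Weil type, with the estimate of Deligne only on average
-/

namespace Pool.Agent.Zk1.BIR

open Complex Filter Topology Set
open Pool.Agent.Zk1.BIL (LL)
open Pool.Agent.Zk3.GL (pol_factor re_sh im_sh IsHW pow_split)

/-- `L` is an L-function `∏ P_p(p^(-s))⁻¹` of degree `≤ d`, weight `i`; Deligne's estimate holds on average. -/
structure IsHR (i d : ℕ) (M : ℝ) (P : ℕ → Polynomial ℂ) (A Q : ℝ) (L : ℂ → ℂ) : Prop where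
  const : ∀ p : ℕ, p.Prime → (P p).coeff 0 = 1
  degree : ∀ p : ℕ, p.Prime → (P p).natDegree ≤ d
  roots : ∀ p : ℕ, p.Prime → ∀ z : ℂ, (P p).eval z = 0 → (p : ℝ) ^ (-(((i : ℝ) + 1) / 2)) ≤ ‖z‖
  mean : ∃ g : ℕ → ℝ, (∀ p : ℕ, 1 ≤ g p) ∧
    (∀ p : ℕ, p.Prime → ∀ z : ℂ, (P p).eval z = 0 → (p : ℝ) ^ (-((i : ℝ) / 2)) ≤ g p * ‖z‖) ∧
    ∀ N : ℕ, ∑ p ∈ (Finset.range (N + 1)).filter Nat.Prime, g p ^ 2 ≤ M * N
  euler : ∀ s : ℂ, (i : ℝ) / 2 + 1 < s.re →
    HasProd (fun p : Nat.Primes => ((P p).eval (((p : ℕ) : ℂ) ^ (-s)))⁻¹) (L s)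
  analytic : ∀ s : ℂ, 0 < s.im → AnalyticAt ℂ L s
  growth : ∀ s : ℂ, (i : ℝ) / 2 + 1 / 16 ≤ s.re → s.re ≤ (i : ℝ) / 2 + 4 → 1 ≤ s.im →
    ‖L s‖ ≤ A * (Q * s.im) ^ A

/-- the exponential form -/
theorem IsHR.form {i d : ℕ} {M : ℝ} {P : ℕ → Polynomial ℂ} {A Q : ℝ} {L : ℂ → ℂ} (h : IsHR i d M P A Q L)
    (hM : 0 ≤ M) : ∃ (β : ℕ → Fin d → ℂ) (g : ℕ → ℝ), RB d M β g ∧
      ∀ w : ℂ, 1 < w.re → L (w + (i : ℂ) / 2) = Complex.exp (LL (cf (co β)) w) := by
  obtain ⟨g, hg1, hgz, hgs⟩ := h.mean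
  have h1 : ∀ p : ℕ, ∃ α : Fin d → ℂ, p.Prime →
      (∀ j, ‖α j‖ ≤ (p : ℝ) ^ ((i : ℝ) / 2) * min (g p) (Real.sqrt p)) ∧
      ∀ z : ℂ, (P p).eval z = ∏ j, (1 - α j * z) := by
    intro p
    by_cases hp : p.Prime
    · have hp0 : (0 : ℝ) < p := by exact_mod_cast hp.pos
      have hg0 : 0 < g p := by linarith [hg1 p]
      have hs0 : 0 < Real.sqrt p := Real.sqrt_pos.2 hp0
      have hm0 : 0 < min (g p) (Real.sqrt p) := lt_min hg0 hs0
      obtain ⟨α, h2, h3⟩ := pol_factor (R := (p : ℝ) ^ ((i : ℝ) / 2) * min (g p) (Real.sqrt p)) (by positivity)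
        (h.const p hp) (h.degree p hp)
        (fun z hz => by
          rw [mul_inv, ← Real.rpow_neg hp0.le]
          rcases le_total (g p) (Real.sqrt p) with hle | hle
          · rw [min_eq_left hle, ← div_eq_mul_inv, div_le_iff₀ hg0, mul_comm ‖z‖]
            exact hgz p hp z hz
          · rw [min_eq_right hle]
            refine le_trans (le_of_eq ?_) (h.roots p hp z hz)
            rw [Real.sqrt_eq_rpow, ← Real.rpow_neg hp0.le, ← Real.rpow_add hp0]
            congr 1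
            ring)
      exact ⟨α, fun _ => ⟨h2, h3⟩⟩
    · exact ⟨0, fun h => absurd h hp⟩
  choose α hα using h1
  set β : ℕ → Fin d → ℂ := fun p j => α p j * (((p : ℝ) ^ (-((i : ℝ) / 2)) : ℝ) : ℂ) with hβ
  have hβ1 : ∀ p : ℕ, p.Prime → ∀ j, ‖β p j‖ ≤ min (g p) (Real.sqrt p) := by
    intro p hp j
    have hp0 : (0 : ℝ) < p := by exact_mod_cast hp.pos
    rw [hβ]
    simp only
    rw [norm_mul, Complex.norm_real, Real.norm_of_nonneg (by positivity)]
    calc ‖α p j‖ * (p : ℝ) ^ (-((i : ℝ) / 2)) ≤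
          ((p : ℝ) ^ ((i : ℝ) / 2) * min (g p) (Real.sqrt p)) * (p : ℝ) ^ (-((i : ℝ) / 2)) :=
          mul_le_mul_of_nonneg_right ((hα p hp).1 j) (by positivity)
      _ = ((p : ℝ) ^ ((i : ℝ) / 2) * (p : ℝ) ^ (-((i : ℝ) / 2))) * min (g p) (Real.sqrt p) := by ring
      _ = min (g p) (Real.sqrt p) := by rw [← Real.rpow_add hp0, add_neg_cancel, Real.rpow_zero, one_mul]
  have hRB : RB d M β g := ⟨hg1, fun p hp j => (hβ1 p hp j).trans (min_le_left _ _),
    fun p hp j => (hβ1 p hp j).trans (min_le_right _ _), hgs⟩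
  refine ⟨β, g, hRB, fun w hw => ?_⟩
  have h2 := hRB.exp_LL hM hw
  have h3 := h.euler (w + (i : ℂ) / 2) (by rw [re_sh]; linarith)
  refine h3.unique (h2.congr_fun fun p => ?_)
  have hp : (p : ℕ).Prime := p.2
  have hp0 : (0 : ℝ) < (p : ℕ) := by exact_mod_cast hp.pos
  have hp0' : ((p : ℕ) : ℂ) ≠ 0 := by exact_mod_cast hp.ne_zero
  rw [(hα p hp).2]
  congr 1
  refine Finset.prod_congr rfl fun j _ => ?_
  rw [hβ]
  simp only
  have e1 : ((p : ℕ) : ℂ) ^ (-(w + (i : ℂ) / 2)) =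
      (((((p : ℕ) : ℝ) ^ (-((i : ℝ) / 2)) : ℝ)) : ℂ) * ((p : ℕ) : ℂ) ^ (-w) := by
    rw [Complex.ofReal_cpow hp0.le, Complex.ofReal_natCast, ← Complex.cpow_add _ _ hp0']
    congr 1
    push_cast
    ring
  rw [e1]
  ring

/-- the constant in the lower bound -/
noncomputable def Eh (d : ℕ) (M : ℝ) : ℝ := 5 * (((d + 1) * Real.sqrt M) ^ 2 * Pool.Agent.Zk1.BI.Cr)

/-- Hasse-Weil L-functions belong to the class `LR` -/
theorem IsHR.toLR {i d : ℕ} {M : ℝ} {P : ℕ → Polynomial ℂ} {A Q : ℝ} {L : ℂ → ℂ} (h : IsHR i d M P A Q L)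
    (hM : 0 ≤ M) (hA : 1 ≤ A) (hQ : 1 ≤ Q) : ∃ (a : ℕ → ℂ) (g : ℕ → ℝ),
      LR ((d + 1) * Real.sqrt M) (max A (Real.exp (Eh d M))) Q (fun w => L (w + (i : ℂ) / 2)) a g := by
  obtain ⟨β, g, hRB, hexp⟩ := h.form hM
  have hcb := hRB.cb hM
  have hcc := hcb.cc
  refine ⟨co β, fun p => (d + 1) * g p, ?_, ?_, ?_, ?_, ?_, hcb⟩
  · intro s hs
    have h1 : AnalyticAt ℂ L (s + (i : ℂ) / 2) := h.analytic _ (by rw [im_sh]; exact hs)
    exact AnalyticAt.comp (g := L) (f := fun w => w + (i : ℂ) / 2) h1 (by fun_prop)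
  · intro s h1 h2 h3
    have h4 := h.growth (s + (i : ℂ) / 2) (by rw [re_sh]; linarith) (by rw [re_sh]; linarith)
      (by rw [im_sh]; exact h3)
    rw [im_sh] at h4
    refine h4.trans ?_
    have h5 : 1 ≤ Q * s.im := by nlinarith
    exact mul_le_mul (le_max_left _ _) (Real.rpow_le_rpow_of_exponent_le h5 (le_max_left _ _))
      (by positivity) (by positivity)
  · intro t _
    have h1 : (1 : ℝ) < ((⟨2, t⟩ : ℂ)).re := by norm_num
    rw [hexp _ h1, Complex.norm_exp]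
    have h2 : ‖LL (cf (co β)) (⟨2, t⟩ : ℂ)‖ ≤ Eh d M := hcc.LL_le (by norm_num)
    have h3 := Complex.abs_re_le_norm (LL (cf (co β)) (⟨2, t⟩ : ℂ))
    have h4 := neg_abs_le (LL (cf (co β)) (⟨2, t⟩ : ℂ)).re
    calc (max A (Real.exp (Eh d M)))⁻¹ ≤ (Real.exp (Eh d M))⁻¹ :=
          inv_anti₀ (Real.exp_pos _) (le_max_right _ _)
      _ = Real.exp (-(Eh d M)) := (Real.exp_neg _).symm
      _ ≤ _ := Real.exp_le_exp.mpr (by linarith)
  · intro s hs _
    rw [hexp _ hs]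
    exact Complex.exp_ne_zero _
  · intro s hs _
    have h1 : (fun w => L (w + (i : ℂ) / 2)) =ᶠ[𝓝 s] fun w => Complex.exp (LL (cf (co β)) w) := by
      have h6 : {z : ℂ | 1 < z.re} ∈ 𝓝 s :=
        (isOpen_lt continuous_const Complex.continuous_re).mem_nhds hs
      filter_upwards [h6] with z hz
      exact hexp z hz
    have e1 : ∑' n : ℕ, cf (co β) n * Real.log n * (n : ℂ) ^ (-s) = ∑' n : ℕ, co β n * (n : ℂ) ^ (-s) := by
      refine tsum_congr fun n => ?_
      rcases Nat.lt_or_ge n 2 with hn | hn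
      · have h2 : ¬ IsPrimePow n := by
          intro hp
          have := hp.two_le
          omega
        rw [hcc.pp n h2, hcb.pp n h2, zero_mul]
      · unfold cf
        have hlog : (Real.log n : ℂ) ≠ 0 := by
          have : Real.log n ≠ 0 := (Real.log_pos (by exact_mod_cast hn)).ne'
          exact_mod_cast this
        rw [div_mul_cancel₀ _ hlog]
    rw [h1.deriv_eq, (hcc.deriv1 hs).cexp.deriv, hexp _ hs, e1]
    field_simp

/-- Deligne's estimate implies the estimate on average -/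
theorem IsHR.of_HW {i d : ℕ} {P : ℕ → Polynomial ℂ} {A Q : ℝ} {L : ℂ → ℂ} (h : IsHW i d P A Q L) :
    IsHR i d 1 P A Q L where
  const := h.const
  degree := h.degree
  roots p hp z hz := by
    refine le_trans ?_ (h.roots p hp z hz)
    exact Real.rpow_le_rpow_of_exponent_le (by exact_mod_cast hp.one_lt.le) (by linarith)
  mean := by
    refine ⟨fun _ => 1, fun _ => le_rfl, fun p hp z hz => by rw [one_mul]; exact h.roots p hp z hz, fun N => ?_⟩
    simp only [one_pow, Finset.sum_const, nsmul_eq_mul, mul_one, one_mul]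
    have h4 : (Finset.range (N + 1)).filter Nat.Prime ⊆ Finset.Icc 1 N := by
      intro p hp
      simp only [Finset.mem_filter, Finset.mem_range] at hp
      rw [Finset.mem_Icc]
      exact ⟨hp.2.one_lt.le, by omega⟩
    have h5 := Finset.card_le_card h4
    rw [Nat.card_Icc, Nat.add_sub_cancel] at h5
    exact_mod_cast h5
  euler := h.euler
  analytic := h.analytic
  growth := h.growth

/-- products -/
theorem IsHR.mul {i d d' : ℕ} {M M' : ℝ} {P P' : ℕ → Polynomial ℂ} {A Q A' Q' : ℝ} {L L' : ℂ → ℂ}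
    (h : IsHR i d M P A Q L) (h' : IsHR i d' M' P' A' Q' L') (hA : 1 ≤ A) (hQ : 1 ≤ Q) (hA' : 1 ≤ A') (hQ' : 1 ≤ Q') :
    IsHR i (d + d') (M + M') (fun p => P p * P' p) (2 * A * A') (Q * Q') (fun s => L s * L' s) where
  const p hp := by
    rw [Polynomial.mul_coeff_zero, h.const p hp, h'.const p hp, one_mul]
  degree p hp := Polynomial.natDegree_mul_le.trans (Nat.add_le_add (h.degree p hp) (h'.degree p hp))
  roots p hp z hz := by
    rw [Polynomial.eval_mul] at hz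
    rcases mul_eq_zero.1 hz with h1 | h1
    · exact h.roots p hp z h1
    · exact h'.roots p hp z h1
  mean := by
    obtain ⟨g, a1, a2, a3⟩ := h.mean
    obtain ⟨g', b1, b2, b3⟩ := h'.mean
    refine ⟨fun p => max (g p) (g' p), fun p => (a1 p).trans (le_max_left _ _), ?_, ?_⟩
    · intro p hp z hz
      rw [Polynomial.eval_mul] at hz
      rcases mul_eq_zero.1 hz with h1 | h1
      · exact (a2 p hp z h1).trans (mul_le_mul_of_nonneg_right (le_max_left _ _) (norm_nonneg _))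
      · exact (b2 p hp z h1).trans (mul_le_mul_of_nonneg_right (le_max_right _ _) (norm_nonneg _))
    · intro N
      have h1 : ∀ p ∈ (Finset.range (N + 1)).filter Nat.Prime, max (g p) (g' p) ^ 2 ≤ g p ^ 2 + g' p ^ 2 := by
        intro p _
        rcases le_total (g p) (g' p) with hle | hle
        · rw [max_eq_right hle]; nlinarith [sq_nonneg (g p)]
        · rw [max_eq_left hle]; nlinarith [sq_nonneg (g' p)]
      refine (Finset.sum_le_sum h1).trans ?_
      rw [Finset.sum_add_distrib]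
      linarith [a3 N, b3 N]
  euler s hs := by
    refine ((h.euler s hs).mul (h'.euler s hs)).congr_fun fun p => ?_
    rw [Polynomial.eval_mul, mul_inv]
  analytic s hs := (h.analytic s hs).mul (h'.analytic s hs)
  growth s h1 h2 h3 := by
    rw [norm_mul]
    have e1 := h.growth s h1 h2 h3
    have e2 := h'.growth s h1 h2 h3
    have e3 : 1 ≤ Q * s.im := by nlinarith
    have e4 : 1 ≤ Q' * s.im := by nlinarith
    refine (mul_le_mul e1 e2 (norm_nonneg _) (by positivity)).trans ?_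
    refine pow_split hA hA' e3 e4 ?_ ?_
    · refine mul_le_mul_of_nonneg_right ?_ (by linarith)
      exact le_mul_of_one_le_right (by linarith) hQ'
    · refine mul_le_mul_of_nonneg_right ?_ (by linarith)
      exact le_mul_of_one_le_left (by linarith) hQ

end Pool.Agent.Zk1.BIR
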