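import Pool.Agent.Zk1.BIR.Pol
import Pool.Agent.Zk1.BIR.Fin

set_option autoImplicit false

/-!
# The density theorem for L-functions of Hasse-Weil type
-/

namespace Pool.Agent.Zk1.BIR

open Complex Set
open Pool.Agent.Zk1.BD (DE)
open Pool.Agent.Zk1.BIL (num near sparse)
open Pool.Agent.Zk3.GL (re_sh im_sh ord_sh)

lemma num_shift (i : ℕ) (L : ℂ → ℂ) (S : Set ℂ) :
    num (fun w => L (w + (i : ℂ) / 2)) ((fun w : ℂ => w + (i : ℂ) / 2) ⁻¹' S) = num L S := by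
  unfold num
  apply finsum_mem_eq_of_bijOn (fun w : ℂ => w + (i : ℂ) / 2)
  · refine ⟨fun w hw => hw, fun a _ b _ h => add_right_cancel h, fun s hs => ⟨s - (i : ℂ) / 2, ?_, ?_⟩⟩
    · change s - (i : ℂ) / 2 + (i : ℂ) / 2 ∈ S
      rwa [sub_add_cancel]
    · change s - (i : ℂ) / 2 + (i : ℂ) / 2 = s
      rw [sub_add_cancel]
  · intro w _
    exact ord_sh i L w

lemma near_shift (i : ℕ) (L : ℂ → ℂ) (ε : ℝ) (ρ : ℂ) :
    near (fun w => L (w + (i : ℂ) / 2)) ε ρ = (fun w : ℂ => w + (i : ℂ) / 2) ⁻¹' near L ε (ρ + (i : ℂ) / 2) := by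
  ext s
  simp only [near, Set.mem_ofPred_eq, Set.mem_preimage, re_sh, im_sh]
  constructor
  · rintro ⟨h1, h2, h3⟩
    exact ⟨h1, by linarith, h3⟩
  · rintro ⟨h1, h2, h3⟩
    exact ⟨h1, by linarith, h3⟩

/-- the zeros which are counted -/
def spi (i : ℕ) (L : ℂ → ℂ) (c ε σ T H : ℝ) : Set ℂ := {ρ : ℂ | L ρ = 0 ∧ (i : ℝ) / 2 + σ ≤ ρ.re ∧ T < ρ.im ∧
  ρ.im ≤ T + H ∧ (num L (near L ε ρ) : ℝ) < c * Real.log H}

lemma sparse_shift (i : ℕ) (L : ℂ → ℂ) (c ε σ T H : ℝ) :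
    sparse (fun w => L (w + (i : ℂ) / 2)) c ε σ T H = (fun w : ℂ => w + (i : ℂ) / 2) ⁻¹' spi i L c ε σ T H := by
  ext s
  simp only [sparse, spi, Set.mem_ofPred_eq, Set.mem_preimage, re_sh, im_sh, near_shift, num_shift]
  constructor
  · rintro ⟨h1, h2, h3⟩
    exact ⟨h1, by linarith, h3⟩
  · rintro ⟨h1, h2, h3⟩
    exact ⟨h1, by linarith, h3⟩

lemma finite_of_shift (i : ℕ) {S : Set ℂ} (h : ((fun w : ℂ => w + (i : ℂ) / 2) ⁻¹' S).Finite) : S.Finite := by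
  have h1 := h.image (fun w : ℂ => w + (i : ℂ) / 2)
  rwa [Set.image_preimage_eq S (fun s => ⟨s - (i : ℂ) / 2, sub_add_cancel _ _⟩)] at h1

theorem dens (ε : ℝ) (hε : 0 < ε) (D : ℕ) (M A : ℝ) (hM : 1 ≤ M) (hA : 1 ≤ A) : ∃ c B C : ℝ, 0 < c ∧ 0 < B ∧ 0 < C ∧
    ∀ (i : ℕ) (P : ℕ → Polynomial ℂ) (Q : ℝ) (L : ℂ → ℂ), 1 ≤ Q → IsHR i D M P A Q L →
    (∀ ρ : ℂ, 2 ≤ ρ.im → (near L ε ρ).Finite) ∧
    ∀ k : ℕ, 1 ≤ k → ∀ σ T H : ℝ, 1 - (1 / 2) ^ k ≤ σ → σ ≤ 1 → 3 ≤ T → (Real.log (Q * T)) ^ B ≤ H → H ≤ T →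
      (spi i L c ε σ T H).Finite ∧ (num L (spi i L c ε σ T H) : ℝ) ≤ C * H ^ (DE k σ + ε) := by
  have hM0 : 0 ≤ M := by linarith
  have hs1 : 1 ≤ Real.sqrt M := Real.one_le_sqrt.2 hM
  have hD0 : (0 : ℝ) ≤ D := Nat.cast_nonneg D
  have hD1 : 1 ≤ ((D : ℝ) + 1) * Real.sqrt M := by nlinarith
  have hA1 : 1 ≤ max A (Real.exp (Eh D M)) := le_max_of_le_left hA
  obtain ⟨c, B, C, hc, hB, hC, h⟩ := final ε (((D : ℝ) + 1) * Real.sqrt M) (max A (Real.exp (Eh D M))) hε hD1 hA1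
  refine ⟨c, B, C, hc, hB, hC, fun i P Q L hQ hL => ?_⟩
  obtain ⟨a, g, hLR⟩ := hL.toLR hM0 hA hQ
  refine ⟨fun ρ hρ => ?_, fun k hk σ T H hσ hσ1 hT hTH hHT => ⟨?_, ?_⟩⟩
  · apply finite_of_shift i
    have e1 := near_shift i L ε (ρ - (i : ℂ) / 2)
    rw [sub_add_cancel] at e1
    rw [← e1]
    apply hLR.near_fin hA1
    have : ((i : ℂ) / 2) = (((i : ℝ) / 2 : ℝ) : ℂ) := by push_cast; rfl
    rw [this, Complex.sub_im, Complex.ofReal_im, sub_zero]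
    exact hρ
  · apply finite_of_shift i
    rw [← sparse_shift]
    exact hLR.sparse_finite hA1 (by linarith)
  · rw [← num_shift, ← sparse_shift]
    exact h Q _ a g hQ hLR k hk σ T H hσ hσ1 hT hTH hHT

end Pool.Agent.Zk1.BIR
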