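import Pool.Agent.Zk1.BIR.Basic

set_option autoImplicit false

/-!
# The Dirichlet series of the logarithm in the whole half-plane of absolute convergence
-/

namespace Pool.Agent.Zk1.BIR

open Complex Filter Topology Set
open Pool.Agent.Zk1.BIL (LL w_norm pow_cpow)
open ArithmeticFunction (vonMangoldt)

variable {D : ℝ} {c : ℕ → ℂ} {g : ℕ → ℝ}

lemma two_le_q {e : ℝ} (he : 1 / 2 ≤ e) : (2 : ℝ) ^ (-e) ≤ 3 / 4 := by
  calc (2 : ℝ) ^ (-e) ≤ (2 : ℝ) ^ (-(1 / 2 : ℝ)) :=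
        Real.rpow_le_rpow_of_exponent_le (by norm_num) (by linarith)
    _ ≤ 3 / 4 := by
        rw [Real.rpow_neg (by norm_num), ← Real.sqrt_eq_rpow]
        have h1 : (4 / 3 : ℝ) ≤ Real.sqrt 2 := by
          apply Real.le_sqrt_of_sq_le
          norm_num
        rw [inv_le_comm₀ (by positivity) (by norm_num)]
        norm_num at h1 ⊢
        linarith

lemma CC.summable1 (h : CC D c g) {s : ℂ} (hs : 1 < s.re) :
    Summable fun n : ℕ => c n * (n : ℂ) ^ (-s) := by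
  apply Summable.of_norm
  have hsupp : ∀ n : ℕ, ¬ IsPrimePow n → ‖c n * (n : ℂ) ^ (-s)‖ = 0 := by
    intro n hn
    rw [h.pp n hn, zero_mul, norm_zero]
  refine (summable_subtype_iff_indicator (s := {n | IsPrimePow n}).mp ?_).congr
      fun n ↦ Set.indicator_apply_eq_self.mpr fun (hn : ¬ IsPrimePow n) ↦ hsupp n hn
  refine (Nat.Primes.prodNatEquiv.summable_iff (f := (fun n : ℕ => ‖c n * (n : ℂ) ^ (-s)‖) ∘
    (Subtype.val : {n : ℕ // IsPrimePow n} → ℕ))).1 ?_
  obtain ⟨v, hv⟩ : ∃ v : ℕ → ℝ, v = fun n : ℕ => if n.Prime then g n ^ 2 * (1 / (n : ℝ) ^ s.re) else 0 := ⟨_, rfl⟩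
  have hv0 : ∀ n, 0 ≤ v n := by
    intro n
    rw [hv]
    simp only
    split_ifs
    · positivity
    · exact le_rfl
  have hvr : ∀ N : ℕ, ∑ n ∈ Finset.range N, v n ≤ D ^ 2 * ∑' n : ℕ, 1 / (n : ℝ) ^ s.re := by
    intro N
    have h1 : ∑ n ∈ Finset.range N, v n ≤ ∑ n ∈ Finset.range (N + 1), v n :=
      Finset.sum_le_sum_of_subset_of_nonneg (Finset.range_mono (Nat.le_succ _)) fun n _ _ => hv0 n
    refine h1.trans ?_
    rw [hv]
    exact h.sq_sum hs N
  have hvs : Summable v := summable_of_sum_range_le hv0 hvr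
  have h1 : Summable fun x : Nat.Primes × ℕ => (2 * v (x.1 : ℕ)) * (3 / 4 : ℝ) ^ x.2 := by
    have h2 : Summable fun p : Nat.Primes => 2 * v (p : ℕ) := (hvs.subtype _).mul_left 2
    exact h2.mul_of_nonneg (summable_geometric_of_lt_one (by norm_num) (by norm_num))
      (fun p => by have := hv0 (p : ℕ); positivity) (fun k => by positivity)
  refine h1.of_nonneg_of_le (fun x => norm_nonneg _) ?_
  rintro ⟨⟨p, hpp⟩, k⟩
  simp only [Function.comp_apply]
  change ‖c (p ^ (k + 1)) * ((p ^ (k + 1) : ℕ) : ℂ) ^ (-s)‖ ≤ 2 * v p * (3 / 4) ^ k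
  rw [pow_cpow]
  have hwt : v p = g p ^ 2 * ‖(p : ℂ) ^ (-s)‖ := by
    rw [hv]
    simp only
    rw [if_pos hpp, w_norm hpp, Real.rpow_neg (Nat.cast_nonneg _), one_div]
  have h5 := w_one hpp (s := s) (by linarith)
  have h6 := norm_nonneg ((p : ℂ) ^ (-s))
  have h3 := h.g1 p
  rcases Nat.eq_zero_or_pos k with rfl | hk
  · rw [zero_add, pow_one, pow_one, pow_zero, mul_one, norm_mul, hwt]
    have h7 := h.cp p hpp
    calc ‖c p‖ * ‖(p : ℂ) ^ (-s)‖ ≤ g p ^ 2 * ‖(p : ℂ) ^ (-s)‖ := by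
          apply mul_le_mul_of_nonneg_right _ h6
          nlinarith
      _ ≤ 2 * (g p ^ 2 * ‖(p : ℂ) ^ (-s)‖) := by
          have : 0 ≤ g p ^ 2 * ‖(p : ℂ) ^ (-s)‖ := by positivity
          linarith
  · obtain ⟨j, rfl⟩ : ∃ j, k = j + 1 := ⟨k - 1, by omega⟩
    have h7 := h.term_bd hpp (e := 1 / 2) (by norm_num) (s := s) (by linarith) j
    rw [show j + 1 + 1 = j + 2 from rfl]
    refine h7.trans ?_
    have h9 : ((2 : ℝ) ^ (-(1 / 2) : ℝ)) ^ j ≤ (3 / 4) ^ j := pow_le_pow_left₀ (by positivity) (two_le_q le_rfl) j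
    have h10 : g p ^ 2 * ‖(p : ℂ) ^ (-s)‖ ^ 2 ≤ v p := by
      rw [hwt]
      apply mul_le_mul_of_nonneg_left _ (by positivity)
      nlinarith
    calc ((2 : ℝ) ^ (-(1 / 2) : ℝ)) ^ j * (g p ^ 2 * ‖(p : ℂ) ^ (-s)‖ ^ 2) ≤ (3 / 4) ^ j * v p :=
          mul_le_mul h9 h10 (by positivity) (by positivity)
      _ ≤ 2 * v p * (3 / 4) ^ (j + 1) := by
          rw [pow_succ]
          have := hv0 p
          have h11 : 0 ≤ (3 / 4 : ℝ) ^ j * v p := by positivity
          linarith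

lemma CC.term_eq (h : CC D c g) (z : ℂ) (n : ℕ) : LSeries.term c z n = c n * (n : ℂ) ^ (-z) := by
  rcases Nat.eq_zero_or_pos n with rfl | hn
  · rw [LSeries.term_zero, h.pp 0 not_isPrimePow_zero, zero_mul]
  · rw [LSeries.term_of_ne_zero (by omega), Complex.cpow_neg, div_eq_mul_inv]

/-- the derivative -/
lemma CC.deriv1 (h : CC D c g) {s : ℂ} (hs : 1 < s.re) :
    HasDerivAt (LL c) (-(∑' n : ℕ, c n * Real.log n * (n : ℂ) ^ (-s))) s := by
  have habs : LSeries.abscissaOfAbsConv c < s.re := by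
    obtain ⟨x, hx1, hx2⟩ := exists_between hs
    have h1 : LSeriesSummable c (x : ℂ) := by
      unfold LSeriesSummable
      have e1 : LSeries.term c (x : ℂ) = fun n : ℕ => c n * (n : ℂ) ^ (-(x : ℂ)) := funext (h.term_eq _)
      rw [e1]
      exact h.summable1 (by rw [Complex.ofReal_re]; exact hx1)
    refine (h1.abscissaOfAbsConv_le).trans_lt ?_
    rw [Complex.ofReal_re]
    exact_mod_cast hx2
  have h1 := LSeries_hasDerivAt habs
  have e1 : LSeries c = LL c := by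
    funext z
    unfold LSeries LL
    exact tsum_congr (h.term_eq z)
  have e2 : LSeries (LSeries.logMul c) s = ∑' n : ℕ, c n * Real.log n * (n : ℂ) ^ (-s) := by
    unfold LSeries
    refine tsum_congr fun n => ?_
    rcases Nat.eq_zero_or_pos n with rfl | hn
    · rw [LSeries.term_zero, h.pp 0 not_isPrimePow_zero, zero_mul, zero_mul]
    · rw [LSeries.term_of_ne_zero (by omega), Complex.cpow_neg, div_eq_mul_inv]
      unfold LSeries.logMul
      rw [← Complex.natCast_log]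
      ring
  rw [e1, e2] at h1
  exact h1

/-! ### Euler products -/

/-- coefficients of `-L'/L` -/
noncomputable def co {d : ℕ} (β : ℕ → Fin d → ℂ) (n : ℕ) : ℂ :=
  (vonMangoldt n : ℂ) * ∑ j, β n.minFac j ^ (n.factorization n.minFac)

lemma co_pow {d : ℕ} (β : ℕ → Fin d → ℂ) {p k : ℕ} (hp : p.Prime) (hk : k ≠ 0) :
    co β (p ^ k) = (Real.log p : ℂ) * ∑ j, β p j ^ k := by
  unfold co
  rw [ArithmeticFunction.vonMangoldt_apply_pow hk, ArithmeticFunction.vonMangoldt_apply_prime hp,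
    hp.pow_minFac hk, hp.factorization_pow, Finsupp.single_eq_same]

/-- bounds for the inverse roots -/
structure RB (d : ℕ) (M : ℝ) (β : ℕ → Fin d → ℂ) (g : ℕ → ℝ) : Prop where
  g1 : ∀ p : ℕ, 1 ≤ g p
  le : ∀ p : ℕ, p.Prime → ∀ j, ‖β p j‖ ≤ g p
  sq : ∀ p : ℕ, p.Prime → ∀ j, ‖β p j‖ ≤ Real.sqrt p
  gs : ∀ N : ℕ, ∑ p ∈ (Finset.range (N + 1)).filter Nat.Prime, g p ^ 2 ≤ M * N

variable {d : ℕ} {M : ℝ} {β : ℕ → Fin d → ℂ}

theorem RB.cb (h : RB d M β g) (hM : 0 ≤ M) : CB ((d + 1) * Real.sqrt M) (co β) (fun p => (d + 1) * g p) := by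
  have hd : (0 : ℝ) ≤ d := Nat.cast_nonneg d
  refine ⟨?_, ?_, ?_, ?_, ?_⟩
  · intro n hn
    unfold co
    rw [ArithmeticFunction.vonMangoldt_eq_zero_iff.2 hn]
    simp
  · intro p
    have := h.g1 p
    nlinarith
  · intro N
    have h1 := h.gs N
    have e1 : ∑ p ∈ (Finset.range (N + 1)).filter Nat.Prime, (((d : ℝ) + 1) * g p) ^ 2 =
        (d + 1) ^ 2 * ∑ p ∈ (Finset.range (N + 1)).filter Nat.Prime, g p ^ 2 := by
      rw [Finset.mul_sum]
      exact Finset.sum_congr rfl fun p _ => by ring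
    rw [e1, mul_pow, Real.sq_sqrt hM, mul_assoc]
    exact mul_le_mul_of_nonneg_left h1 (by positivity)
  · intro p hp
    have h1 := co_pow β hp one_ne_zero
    rw [pow_one] at h1
    have hlog : 0 ≤ Real.log p := Real.log_natCast_nonneg p
    rw [h1, norm_mul, Complex.norm_real, Real.norm_of_nonneg hlog, mul_comm]
    apply mul_le_mul_of_nonneg_right _ hlog
    have h2 := h.g1 p
    calc ‖∑ j, β p j ^ 1‖ ≤ ∑ j : Fin d, g p := norm_sum_le_of_le _ fun j _ => by
            rw [pow_one]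
            exact h.le p hp j
      _ = d * g p := by simp
      _ ≤ (d + 1) * g p := by nlinarith
  · intro p hp k
    have hlog : 0 ≤ Real.log p := Real.log_natCast_nonneg p
    rw [co_pow β hp (by omega), norm_mul, Complex.norm_real, Real.norm_of_nonneg hlog, mul_comm]
    apply mul_le_mul_of_nonneg_right _ hlog
    have h2 := h.g1 p
    have h3 : 0 ≤ g p ^ 2 * Real.sqrt p ^ k := by positivity
    calc ‖∑ j, β p j ^ (k + 2)‖ ≤ ∑ j : Fin d, g p ^ 2 * Real.sqrt p ^ k := norm_sum_le_of_le _ fun j _ => by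
            rw [norm_pow, pow_add, mul_comm]
            exact mul_le_mul (pow_le_pow_left₀ (norm_nonneg _) (h.le p hp j) 2)
              (pow_le_pow_left₀ (norm_nonneg _) (h.sq p hp j) k) (by positivity) (by positivity)
      _ = d * (g p ^ 2 * Real.sqrt p ^ k) := by simp
      _ ≤ ((d + 1) * g p) ^ 2 * Real.sqrt p ^ k := by
          rw [mul_pow, mul_assoc]
          apply mul_le_mul_of_nonneg_right _ h3
          nlinarith

/-- `CB` gives `CC` for the coefficients of the logarithm -/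
lemma CB.cc {a : ℕ → ℂ} (h : CB D a g) : CC D (cf a) g := by
  refine ⟨?_, h.g1, h.gs, ?_, ?_⟩
  · intro n hn
    unfold cf
    rw [h.pp n hn, zero_div]
  · intro p hp
    unfold cf
    have hlog : 0 < Real.log p := Real.log_pos (by exact_mod_cast hp.one_lt)
    rw [norm_div, Complex.norm_real, Real.norm_of_nonneg hlog.le, div_le_iff₀ hlog]
    exact h.ap p hp
  · intro p hp j
    unfold cf
    have hlog : 0 < Real.log p := Real.log_pos (by exact_mod_cast hp.one_lt)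
    have h1 : Real.log p ≤ Real.log ((p ^ (j + 2) : ℕ) : ℝ) := by
      push_cast
      rw [Real.log_pow]
      push_cast
      have : (0 : ℝ) ≤ j := Nat.cast_nonneg j
      nlinarith
    have h2 : 0 < Real.log ((p ^ (j + 2) : ℕ) : ℝ) := by linarith
    rw [norm_div, Complex.norm_real, Real.norm_of_nonneg h2.le, div_le_iff₀ h2]
    refine (h.apj p hp j).trans ?_
    exact mul_le_mul_of_nonneg_left h1 (by positivity)

lemma RB.lt_one (h : RB d M β g) {s : ℂ} (hs : 1 < s.re) {p : ℕ} (hp : p.Prime) (j : Fin d) :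
    ‖β p j * (p : ℂ) ^ (-s)‖ < 1 := by
  rw [norm_mul]
  have h1 := w_bd hp (e := 1 / 2) (by norm_num) (s := s) (by linarith)
  have h2 := two_lt (show (0 : ℝ) < 1 / 2 by norm_num)
  have h3 := mul_le_mul_of_nonneg_right (h.sq p hp j) (norm_nonneg ((p : ℂ) ^ (-s)))
  linarith

theorem RB.sum_log (h : RB d M β g) (hM : 0 ≤ M) {s : ℂ} (hs : 1 < s.re) :
    HasSum (fun p : Nat.Primes => ∑ j, -Complex.log (1 - β p j * ((p : ℕ) : ℂ) ^ (-s))) (LL (cf (co β)) s) := by
  have hcc := (h.cb hM).cc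
  have h1 : HasSum (fun n : ℕ => cf (co β) n * (n : ℂ) ^ (-s)) (LL (cf (co β)) s) := (hcc.summable1 hs).hasSum
  have hsup : Function.support (fun n : ℕ => cf (co β) n * (n : ℂ) ^ (-s)) ⊆ {n : ℕ | IsPrimePow n} := by
    intro n hn
    by_contra h
    apply hn
    simp only
    rw [hcc.pp n h, zero_mul]
  have h2 := (hasSum_subtype_iff_of_support_subset hsup).2 h1
  have h3 := (Nat.Primes.prodNatEquiv.hasSum_iff).2 h2
  refine h3.prod_fiberwise fun p => ?_
  have hp : (p : ℕ).Prime := p.2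
  have hpr : (1 : ℝ) < (p : ℕ) := by exact_mod_cast hp.one_lt
  have hlog : Real.log (p : ℕ) ≠ 0 := (Real.log_pos hpr).ne'
  have h4 : HasSum (fun k : ℕ => ∑ j, (β p j * ((p : ℕ) : ℂ) ^ (-s)) ^ (k + 1) / ((k : ℂ) + 1))
      (∑ j, -Complex.log (1 - β p j * ((p : ℕ) : ℂ) ^ (-s))) := by
    refine hasSum_sum fun j _ => ?_
    exact Complex.hasSum_taylorSeries_neg_log' (h.lt_one hs hp j)
  refine h4.congr_fun fun k => ?_
  have e1 : ((Nat.Primes.prodNatEquiv (p, k) : {n : ℕ // IsPrimePow n}) : ℕ) = (p : ℕ) ^ (k + 1) :=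
    Nat.Primes.coe_prodNatEquiv_apply p k
  simp only [Function.comp_apply, e1]
  unfold cf
  rw [co_pow β hp (by omega), pow_cpow, Nat.cast_pow, Real.log_pow]
  rw [Finset.mul_sum, Finset.sum_div, Finset.sum_mul]
  refine Finset.sum_congr rfl fun j _ => ?_
  have h8 : ((Real.log (p : ℕ) : ℝ) : ℂ) ≠ 0 := by exact_mod_cast hlog
  have h9 : ((k : ℂ) + 1) ≠ 0 := by exact_mod_cast Nat.succ_ne_zero k
  rw [Complex.ofReal_mul, mul_pow]
  generalize ((Real.log (p : ℕ) : ℝ) : ℂ) = l at h8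
  push_cast
  field_simp

theorem RB.exp_LL (h : RB d M β g) (hM : 0 ≤ M) {s : ℂ} (hs : 1 < s.re) :
    HasProd (fun p : Nat.Primes => (∏ j, (1 - β p j * ((p : ℕ) : ℂ) ^ (-s)))⁻¹) (Complex.exp (LL (cf (co β)) s)) := by
  refine (h.sum_log hM hs).cexp.congr_fun fun p => ?_
  simp only [Function.comp_apply]
  rw [Complex.exp_sum, ← Finset.prod_inv_distrib]
  refine Finset.prod_congr rfl fun j _ => ?_
  have hp : (p : ℕ).Prime := p.2
  have hne : 1 - β p j * ((p : ℕ) : ℂ) ^ (-s) ≠ 0 := by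
    intro h0
    have h1 : ‖β p j * ((p : ℕ) : ℂ) ^ (-s)‖ = 1 := by
      rw [← sub_eq_zero.1 h0, norm_one]
    have h2 := h.lt_one hs hp j
    linarith
  rw [Complex.exp_neg, Complex.exp_log hne]

end Pool.Agent.Zk1.BIR
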